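import Pool.Agent.Q167.SQ.F

/-! # A lower bound for Euler's function, and a convergent series -/

set_option autoImplicit false

namespace Q167.SQ

open Finset Filter Topology

lemma prod_ge (S : Finset ℕ) : (∀ p ∈ S, 2 ≤ p) →
    1 / ((S.card : ℚ) + 1) ≤ ∏ p ∈ S, (1 - (p : ℚ)⁻¹) := by
  classical
  induction S using Finset.induction_on_max with
  | empty => intro _; simp
  | insert a s hlt ih =>
    intro hS
    have ha : a ∉ s := fun h => lt_irrefl a (hlt a h)
    rw [prod_insert ha, card_insert_of_notMem ha]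
    have ih' := ih fun p hp => hS p (mem_insert_of_mem hp)
    have h2 : 2 ≤ a := hS a (mem_insert_self a s)
    have hcard : s.card ≤ a - 2 := by
      have h1 : s ⊆ Ico 2 a := by
        intro x hx
        rw [mem_Ico]
        exact ⟨hS x (mem_insert_of_mem hx), hlt x hx⟩
      have := card_le_card h1
      rwa [Nat.card_Ico] at this
    have hc : (s.card : ℚ) + 2 ≤ a := by
      have : s.card + 2 ≤ a := by omega
      exact_mod_cast this
    have hs0 : (0:ℚ) ≤ s.card := Nat.cast_nonneg _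
    have h3 : (a : ℚ)⁻¹ ≤ ((s.card : ℚ) + 2)⁻¹ := inv_anti₀ (by linarith) hc
    have h4 : ((s.card : ℚ) + 1) / ((s.card : ℚ) + 2) ≤ 1 - (a : ℚ)⁻¹ := by
      have : ((s.card : ℚ) + 1) / ((s.card : ℚ) + 2) = 1 - ((s.card : ℚ) + 2)⁻¹ := by
        field_simp
        ring
      rw [this]
      linarith
    calc 1 / (((s.card + 1 : ℕ) : ℚ) + 1)
        = ((s.card : ℚ) + 1) / ((s.card : ℚ) + 2) * (1 / ((s.card : ℚ) + 1)) := by
          push_cast
          field_simp
          ring
      _ ≤ _ := mul_le_mul h4 ih' (by positivity) (by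
          have : 0 ≤ ((s.card : ℚ) + 1) / ((s.card : ℚ) + 2) := by positivity
          linarith)

lemma card_primeFactors_le_log {n : ℕ} (hn : n ≠ 0) : n.primeFactors.card ≤ Nat.log 2 n := by
  apply Nat.le_log_of_pow_le (by norm_num)
  calc 2 ^ n.primeFactors.card = ∏ _p ∈ n.primeFactors, 2 := by rw [prod_const]
    _ ≤ ∏ p ∈ n.primeFactors, p :=
        prod_le_prod' fun p hp => (Nat.prime_of_mem_primeFactors hp).two_le
    _ ≤ n := Nat.le_of_dvd (Nat.pos_of_ne_zero hn) (Nat.prod_primeFactors_dvd n)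

lemma totient_ge {n : ℕ} (hn : n ≠ 0) :
    (n : ℝ) / ((Nat.log 2 n : ℝ) + 1) ≤ Nat.totient n := by
  have h1 := Nat.totient_eq_mul_prod_factors n
  have h2 := prod_ge n.primeFactors fun p hp => (Nat.prime_of_mem_primeFactors hp).two_le
  have h3 : (n : ℚ) / ((Nat.log 2 n : ℚ) + 1) ≤ Nat.totient n := by
    rw [h1, div_eq_mul_one_div]
    apply mul_le_mul_of_nonneg_left _ (Nat.cast_nonneg _)
    refine le_trans ?_ h2
    apply one_div_le_one_div_of_le (by positivity)
    have : (n.primeFactors.card : ℚ) ≤ Nat.log 2 n := by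
      exact_mod_cast card_primeFactors_le_log hn
    linarith
  have h4 : (((n : ℚ) / ((Nat.log 2 n : ℚ) + 1) : ℚ) : ℝ) ≤ ((Nat.totient n : ℚ) : ℝ) := by
    exact_mod_cast h3
  push_cast at h4
  exact h4

lemma summable_totient :
    Summable fun n : ℕ => (Real.log n / ((1 + Nat.totient n : ℕ) : ℝ)) ^ 2 := by
  have h1 : Summable fun n : ℕ => (1024 : ℝ) ^ 2 * ((n : ℝ) ^ (7 / 4 : ℝ))⁻¹ :=
    (Real.summable_nat_rpow_inv.2 (by norm_num)).mul_left _
  refine Summable.of_norm_bounded_eventually_nat h1 ?_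
  filter_upwards [eventually_ge_atTop 1] with n hn
  have hn0 : (0:ℝ) < n := by exact_mod_cast hn
  have hn1 : (1:ℝ) ≤ n := by exact_mod_cast hn
  rw [Real.norm_of_nonneg (by positivity)]
  set x : ℝ := (n : ℝ) ^ (1 / 16 : ℝ) with hx
  have hx1 : 1 ≤ x := Real.one_le_rpow hn1 (by norm_num)
  have hlog0 : 0 ≤ Real.log n := Real.log_nonneg hn1
  have hlog : Real.log n ≤ 16 * x := by
    have := Real.log_le_rpow_div hn0.le (show (0:ℝ) < 1 / 16 by norm_num)
    have h2 : (n : ℝ) ^ (1 / 16 : ℝ) / (1 / 16) = 16 * x := by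
      rw [hx]
      ring
    linarith
  have hlog2 : (Nat.log 2 n : ℝ) + 1 ≤ 64 * x := by
    have hl2' := Real.log_two_gt_d9
    have h3 : (Nat.log 2 n : ℝ) * Real.log 2 ≤ Real.log n := by
      have h4 : 2 ^ Nat.log 2 n ≤ n := Nat.pow_log_le_self 2 (by omega)
      have h5 : ((2:ℝ) ^ Nat.log 2 n) ≤ n := by exact_mod_cast h4
      have h6 := Real.log_le_log (by positivity) h5
      rwa [Real.log_pow] at h6
    have h8 : (0:ℝ) ≤ Nat.log 2 n := Nat.cast_nonneg _
    nlinarith
  have hφ := totient_ge (show n ≠ 0 by omega)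
  have h2 : Real.log n / ((1 + Nat.totient n : ℕ) : ℝ) ≤ 1024 * (x ^ 2 / n) := by
    have h3 : (0:ℝ) < n / ((Nat.log 2 n : ℝ) + 1) := by positivity
    push_cast
    calc Real.log n / (1 + (Nat.totient n : ℝ)) ≤ 16 * x / (n / ((Nat.log 2 n : ℝ) + 1)) := by
          apply div_le_div₀ (by positivity) hlog h3
          linarith
      _ = 16 * x * ((Nat.log 2 n : ℝ) + 1) / n := by
          field_simp
      _ ≤ 16 * x * (64 * x) / n := by
          apply div_le_div_of_nonneg_right _ hn0.le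
          exact mul_le_mul_of_nonneg_left hlog2 (by positivity)
      _ = _ := by ring
  refine (pow_le_pow_left₀ (by positivity) h2 2).trans (le_of_eq ?_)
  have e1 : x ^ 4 = (n : ℝ) ^ (1 / 4 : ℝ) := by
    rw [hx, ← Real.rpow_natCast, ← Real.rpow_mul hn0.le]
    norm_num
  have e2 : ((n : ℝ) ^ (7 / 4 : ℝ))⁻¹ = (n : ℝ) ^ (1 / 4 : ℝ) / (n : ℝ) ^ 2 := by
    rw [← Real.rpow_natCast (n : ℝ) 2, ← Real.rpow_sub hn0, ← Real.rpow_neg hn0.le]
    norm_num
  rw [mul_pow, div_pow, e2, ← e1]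
  ring

end Q167.SQ
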