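import Pool.Agent.Q167.LI.T

/-! # Windows at sparse places, for every order of independence: tools -/

set_option autoImplicit false

namespace Q167.SQ

open Finset MeasureTheory Filter Topology Q198.CI Q167.LI

/-- from blocks at a set of places to a model -/
theorem places_model {W : ℕ → Finset ℕ} {κ : ℕ → ℕ} {δ : ℕ → ℝ} (S : Set ℕ) (K : ℕ → ℕ)
    (hdisj : ∀ n n' y, n ∈ S → n' ∈ S → y ∈ W n → y ∈ W n' → n = n')
    (hκ : ∀ n ∈ S, ∀ y ∈ W n, κ y ≤ K n)
    (hlaw : ∀ n ∈ S, ∃ w : Finset ℕ → ℝ, IsLaw (W n) (K n) cp w ∧ δ n ≤ w ∅)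
    (hδ0 : ∀ n, 0 ≤ δ n) (hdiv : ¬ Summable (S.indicator δ)) :
    ∃ (Ω : Type) (_ : MeasurableSpace Ω) (P : Measure Ω) (_ : IsProbabilityMeasure P)
      (E : ℕ → Set Ω), (∀ n, MeasurableSet (E n)) ∧
      (∀ T : Finset ℕ, (∀ n ∈ T, 3 ≤ n ∧ T.card ≤ κ n) →
        P (⋂ n ∈ T, E n) = ENNReal.ofReal (∏ n ∈ T, 1 / Real.log n)) ∧
      ∀ᵐ ω ∂P, ∃ᶠ n : ℕ in atTop, n ∈ S ∧ ∀ y ∈ W n, ω ∉ E y := by
  classical
  have hin : ∀ n k : ℕ, k < (if n ∈ S then 1 else 0) → n ∈ S := by
    intro n k hk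
    split_ifs at hk with h
    · exact h
    · omega
  obtain ⟨Ω, mΩ, P, hP, E, hE, hT, hae⟩ := scale_model (W := fun n _ => W n)
    (cnt := fun n => if n ∈ S then 1 else 0) (κ := κ) (K := K) (p := cp) (δ := δ)
    (by
      intro i k i' k' n hk hk' h1 h2
      have h3 := hin i k hk
      have h4 := hin i' k' hk'
      simp only [if_pos h3] at hk
      simp only [if_pos h4] at hk'
      exact ⟨hdisj i i' n h3 h4 h1 h2, by omega⟩)
    cp_nonneg cp_le_one
    (by
      intro i k n hk hn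
      exact hκ i (hin i k hk) n hn)
    hδ0
    (by
      intro i k hk
      exact hlaw i (hin i k hk))
    (fun _ => Set.univ)
    (by
      intro _
      rw [Set.indicator_univ]
      have h1 : (fun i => (((if i ∈ S then 1 else 0 : ℕ)) : ℝ) * δ i) = S.indicator δ := by
        funext i
        by_cases h : i ∈ S
        · simp [h]
        · simp [h]
      rw [h1]
      exact hdiv)
  refine ⟨Ω, mΩ, P, hP, E, hE, ?_, ?_⟩
  · intro T hT'
    rw [hT T fun n hn => (hT' n hn).2]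
    congr 1
    refine prod_congr rfl fun n hn => ?_
    unfold cp
    rw [if_pos (hT' n hn).1]
  · filter_upwards [hae] with ω hω
    rw [frequently_atTop]
    intro i₀
    obtain ⟨i, hi, _, k, hk, hkn⟩ := hω 0 i₀
    exact ⟨i, hi, hin i k hk, hkn⟩

lemma not_summable_of_blocks {δ : ℕ → ℝ} {a : ℕ → ℕ} (ha : Tendsto a atTop atTop)
    (hm : Monotone a) (h : ∃ᶠ i in atTop, 1 ≤ ∑ n ∈ Ico (a i) (a (i + 1)), δ n) :
    ¬ Summable δ := by
  intro hs
  have h1 := hs.hasSum.tendsto_sum_nat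
  have h2 := h1.comp ha
  have h3 := h1.comp (ha.comp (tendsto_add_atTop_nat 1))
  have h4 := h3.sub h2
  rw [sub_self] at h4
  obtain ⟨i, h5, h6⟩ := (h.and_eventually (h4.eventually_lt_const zero_lt_one)).exists
  simp only [Function.comp_apply] at h6
  rw [sum_Ico_eq_sub _ (hm (Nat.le_succ i))] at h5
  linarith

/-- the length of the largest gap after the place `exp ℓ` of a sparse sequence of integers with
logarithm `L` -/
noncomputable def HH (m : ℕ) (ℓ L : ℝ) : ℝ := m / Real.exp 1 * Real.exp (ℓ / m) * L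

lemma HH_pos {m : ℕ} {ℓ L : ℝ} (hm : 1 ≤ m) (hL : 0 < L) : 0 < HH m ℓ L := by
  have hm' : (0:ℝ) < m := by exact_mod_cast hm
  have h1 := Real.exp_pos (ℓ / m)
  have h2 := Real.exp_pos 1
  unfold HH
  positivity

lemma HH_pow {m : ℕ} {ℓ L : ℝ} (hm : 1 ≤ m) :
    HH m ℓ L ^ m = Real.exp ℓ * (m / Real.exp 1 * L) ^ m := by
  have hm' : (0:ℝ) < m := by exact_mod_cast hm
  have e1 : Real.exp (ℓ / m) ^ m = Real.exp ℓ := by
    rw [← Real.exp_nat_mul]
    congr 1
    field_simp
  unfold HH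
  rw [← e1, ← mul_pow]
  congr 1
  ring

/-- a lower bound -/
lemma HH_low {m : ℕ} {ℓ L τ : ℝ} (hm : 1 ≤ m) (hL : 0 < L) (h : (1 + τ) * m ≤ ℓ) :
    Real.exp τ * (m * L) ≤ HH m ℓ L := by
  have hm' : (0:ℝ) < m := by exact_mod_cast hm
  have h1 : Real.exp (1 + τ) ≤ Real.exp (ℓ / m) := by
    apply Real.exp_le_exp.2
    rw [le_div_iff₀ hm']
    exact h
  unfold HH
  rw [Real.exp_add] at h1
  have h2 := Real.exp_pos 1
  calc Real.exp τ * (m * L) = m / Real.exp 1 * (Real.exp 1 * Real.exp τ) * L := by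
        field_simp
    _ ≤ _ := by
        apply mul_le_mul_of_nonneg_right _ hL.le
        exact mul_le_mul_of_nonneg_left h1 (by positivity)

/-- length of the windows -/
noncomputable def wS (m : ℕ) (ℓ L : ℝ) : ℕ := ⌊(1 - 1 / Real.sqrt m) * HH m ℓ L⌋₊

lemma caseS {σ : ℝ} (hσ : 0 < σ) : ∃ L₀ M₀ : ℝ, ∀ (m : ℕ) (ℓ L : ℝ), M₀ ≤ m → L₀ ≤ L →
    (m : ℝ) ≤ L - 1 → Real.exp (4 * σ) * (m * L) ≤ HH m ℓ L →
    1 ≤ wS m ℓ L ∧
    (∀ B : Finset ℕ, B.card = wS m ℓ L → (∀ y ∈ B, 3 ≤ y ∧ L ≤ Real.log y) →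
      ∃ w' : Finset ℕ → ℝ, IsLaw B (2 * m + 1) cp w' ∧ 4 / Real.exp ℓ ≤ w' ∅) := by
  have he := Real.exp_pos 1
  set θ : ℝ := Real.exp (-σ / 2) with hθ
  have hθ0 : 0 < θ := Real.exp_pos _
  have hθ1 : θ < 1 := by
    rw [hθ, Real.exp_lt_one_iff]
    linarith
  have hθ2 : θ ^ 2 = Real.exp (-σ) := by
    rw [hθ, ← Real.exp_nat_mul]
    congr 1
    push_cast
    ring
  have h1θ : 0 < 1 - θ := by linarith
  have hσ1 : Real.exp (-σ) < 1 := by
    rw [Real.exp_lt_one_iff]
    linarith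
  have hdiff : 0 < Real.exp (3 * σ) - Real.exp (2 * σ) := by
    rw [sub_pos]
    apply Real.exp_lt_exp.2
    linarith
  -- thresholds
  have hL1 : ∀ᶠ L : ℝ in atTop, 2 ≤ L ∧ 2 ≤ (Real.exp (3 * σ) - Real.exp (2 * σ)) * L ∧
      Real.exp (-σ) ≤ 1 - 1 / L ∧ 1 / L ≤ (1 - θ) / 2 := by
    have t1 : Tendsto (fun L : ℝ => (Real.exp (3 * σ) - Real.exp (2 * σ)) * L) atTop atTop :=
      tendsto_id.const_mul_atTop hdiff
    have t2 : Tendsto (fun L : ℝ => 1 / L) atTop (𝓝 0) := by
      simpa using tendsto_inv_atTop_zero (𝕜 := ℝ)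
    filter_upwards [eventually_ge_atTop 2, t1.eventually_ge_atTop 2,
      t2.eventually_le_const (show (0:ℝ) < 1 - Real.exp (-σ) by linarith),
      t2.eventually_le_const (show (0:ℝ) < (1 - θ) / 2 by linarith)] with L g1 g2 g3 g4
    exact ⟨g1, g2, by linarith, g4⟩
  have hM1 : ∀ᶠ M : ℝ in atTop, 1 ≤ M ∧ 1 / Real.sqrt M ≤ 1 - Real.exp (-σ) ∧
      32 * Real.exp 1 * Real.exp (-Real.sqrt M) ≤ 1 - θ := by
    have t0 : Tendsto (fun M : ℝ => Real.sqrt M) atTop atTop := Real.tendsto_sqrt_atTop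
    have t2 : Tendsto (fun M : ℝ => 1 / Real.sqrt M) atTop (𝓝 0) := by
      refine (tendsto_inv_atTop_zero.comp t0).congr fun M => ?_
      rw [Function.comp_apply, one_div]
    have t3 : Tendsto (fun M : ℝ => 32 * Real.exp 1 * Real.exp (-Real.sqrt M)) atTop
        (𝓝 (32 * Real.exp 1 * 0)) :=
      (Real.tendsto_exp_neg_atTop_nhds_zero.comp t0).const_mul _
    rw [mul_zero] at t3
    filter_upwards [eventually_ge_atTop 1,
      t2.eventually_le_const (show (0:ℝ) < 1 - Real.exp (-σ) by linarith),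
      t3.eventually_le_const h1θ] with M g1 g2 g3
    exact ⟨g1, g2, g3⟩
  obtain ⟨L₀, hL₀⟩ := eventually_atTop.1 hL1
  obtain ⟨M₀, hM₀⟩ := eventually_atTop.1 hM1
  refine ⟨L₀, M₀, fun m ℓ L hm hL hmL hlow => ?_⟩
  obtain ⟨l1, l2, l3, l4⟩ := hL₀ L hL
  obtain ⟨m1, m2, m3⟩ := hM₀ m hm
  have hm1 : 1 ≤ m := by exact_mod_cast m1
  have hm0 : (0:ℝ) < m := by linarith
  have hL0 : 0 < L := by linarith
  have hLm1 : 0 < L - 1 := by linarith
  set X : ℝ := Real.exp ℓ with hX
  have hX0 : 0 < X := Real.exp_pos _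
  set g : ℝ := HH m ℓ L with hg
  have hg0 : 0 < g := HH_pos hm1 hL0
  have hgpow : g ^ m = X * (m / Real.exp 1 * L) ^ m := HH_pow hm1
  set r : ℝ := Real.sqrt m with hr
  have hr1 : 1 ≤ r := by rw [hr, Real.one_le_sqrt]; exact m1
  have hr0 : 0 < r := by linarith
  have hrsq : r * r = m := Real.mul_self_sqrt hm0.le
  set s : ℝ := 1 / r with hs
  have hs0 : 0 < s := by positivity
  have hs1 : s < 1 := by
    have := Real.exp_pos (-σ)
    linarith
  set w : ℕ := wS m ℓ L with hw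
  have hwle : (w : ℝ) ≤ (1 - s) * g := Nat.floor_le (mul_nonneg (by linarith) hg0.le)
  have hwlt : (1 - s) * g < w + 1 := Nat.lt_floor_add_one _
  have h3 : Real.exp (3 * σ) * (m * L) ≤ (1 - s) * g := by
    have e1 : Real.exp (3 * σ) = Real.exp (-σ) * Real.exp (4 * σ) := by
      rw [← Real.exp_add]
      congr 1
      ring
    rw [e1, mul_assoc]
    apply mul_le_mul (by linarith) hlow (by positivity) (by linarith)
  have hwm : Real.exp (2 * σ) * (m * L) ≤ (w : ℝ) - m := by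
    have h4 : 2 * m ≤ (Real.exp (3 * σ) - Real.exp (2 * σ)) * L * m :=
      mul_le_mul_of_nonneg_right l2 hm0.le
    have e0 : (Real.exp (3 * σ) - Real.exp (2 * σ)) * L * m =
        Real.exp (3 * σ) * (m * L) - Real.exp (2 * σ) * (m * L) := by ring
    rw [e0] at h4
    linarith
  have hexp2 : 1 ≤ Real.exp (2 * σ) := Real.one_le_exp (by linarith)
  have hmL0 : 0 < (m : ℝ) * L := by positivity
  have hwm' : (m : ℝ) * L ≤ (w : ℝ) - m := (le_mul_of_one_le_left hmL0.le hexp2).trans hwm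
  have h2mL : 2 * (m : ℝ) ≤ m * L := by
    have := mul_le_mul_of_nonneg_left l1 hm0.le
    linarith
  have hw3 : 3 * m ≤ w := by
    have : (3:ℝ) * m ≤ w := by linarith
    exact_mod_cast this
  have hw1 : 1 ≤ w := by omega
  have hw0 : (0:ℝ) < w := by exact_mod_cast hw1
  obtain ⟨N, hN⟩ : ∃ N : ℕ, w = N + 1 := ⟨w - 1, by omega⟩
  have hNr : (N : ℝ) - m + 1 = (w : ℝ) - m := by
    rw [hN]
    push_cast
    ring
  have hwm0 : 0 < (w : ℝ) - m := by linarith
  set B : ℝ := (Real.exp 1 * (w : ℝ) / (m * (L - 1))) ^ m with hB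
  have hbase : 1 ≤ Real.exp 1 * (w : ℝ) / (m * (L - 1)) := by
    rw [le_div_iff₀ (by positivity), one_mul]
    have h5 : (1:ℝ) ≤ Real.exp 1 := Real.one_le_exp (by norm_num)
    have h6 : (w : ℝ) ≤ Real.exp 1 * w := le_mul_of_one_le_left hw0.le h5
    have h7 : (m : ℝ) * (L - 1) = m * L - m := by ring
    linarith
  have hB1 : 1 ≤ B := one_le_pow₀ hbase
  have hB0 : 0 < B := by linarith
  have hKK : KK (N + 1) m (1 / (L - 1)) ≤ B := by
    have ht0 : 0 < m * (L - 1) / (w : ℝ) := by positivity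
    have ht1 : m * (L - 1) / (w : ℝ) ≤ 1 := by
      rw [div_le_one hw0]
      have h7 : (m : ℝ) * (L - 1) = m * L - m := by ring
      linarith
    refine (KK_le (by positivity) ht0 ht1).trans (le_of_eq ?_)
    rw [← hN, hB, one_div_div]
    have e1 : m * (L - 1) / (w : ℝ) * ((w : ℝ) * (1 / (L - 1))) = m := by
      field_simp
    have e2 : Real.exp (m : ℝ) = Real.exp 1 ^ m := by
      rw [← Real.exp_nat_mul, mul_one]
    rw [e1, e2, ← mul_pow]
    congr 1
    ring
  have hη : m / ((N : ℝ) - m + 1) ≤ (1 - θ) / 2 := by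
    rw [hNr, div_le_iff₀ hwm0]
    calc (m : ℝ) = 1 / L * (m * L) := by field_simp
      _ ≤ (1 - θ) / 2 * (m * L) := mul_le_mul_of_nonneg_right l4 hmL0.le
      _ ≤ _ := mul_le_mul_of_nonneg_left hwm' (by linarith)
  have hη0 : 0 ≤ m / ((N : ℝ) - m + 1) := by
    rw [hNr]
    positivity
  have hL11 : 1 / 2 ≤ 1 - 1 / L := by
    have : 1 / L ≤ 1 / 2 := one_div_le_one_div_of_le two_pos l1
    linarith
  -- the bound for `B`
  have hBX : B ≤ Real.exp 1 * Real.exp (-r) * X := by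
    have e2 : (w : ℝ) ^ m ≤ (1 - s) ^ m * (X * (m / Real.exp 1 * L) ^ m) := by
      rw [← hgpow, ← mul_pow]
      exact pow_le_pow_left₀ hw0.le hwle _
    have e3 : (1 - s) ^ m ≤ Real.exp (-r) := by
      have h5 : 1 - s ≤ Real.exp (-s) := by
        have := Real.add_one_le_exp (-s)
        linarith
      refine (pow_le_pow_left₀ (by linarith) h5 _).trans ?_
      rw [← Real.exp_nat_mul]
      apply Real.exp_le_exp.2
      have h6 : (m : ℝ) * s = r := by
        rw [hs, ← hrsq]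
        field_simp
      have h7 : (m : ℝ) * -s = -(m * s) := by ring
      rw [h7, h6]
    have e4 : (m / Real.exp 1 * L) ^ m * (Real.exp 1 / (m * (L - 1))) ^ m ≤ Real.exp 1 := by
      rw [← mul_pow]
      have h5 : m / Real.exp 1 * L * (Real.exp 1 / (m * (L - 1))) = L / (L - 1) := by
        field_simp
      rw [h5]
      have h6 : L / (L - 1) ≤ Real.exp (1 / (L - 1)) := by
        have := Real.add_one_le_exp (1 / (L - 1))
        have h7 : L / (L - 1) = 1 / (L - 1) + 1 := by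
          field_simp
          ring
        linarith
      refine (pow_le_pow_left₀ (by positivity) h6 m).trans ?_
      rw [← Real.exp_nat_mul]
      apply Real.exp_le_exp.2
      rw [mul_one_div, div_le_iff₀ hLm1]
      linarith
    have hQ : 0 ≤ (Real.exp 1 / (m * (L - 1))) ^ m := by positivity
    have e1 : B = (w : ℝ) ^ m * (Real.exp 1 / (m * (L - 1))) ^ m := by
      rw [hB, mul_div_right_comm, mul_pow]
      ring
    rw [e1]
    calc (w : ℝ) ^ m * (Real.exp 1 / (m * (L - 1))) ^ m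
        ≤ ((1 - s) ^ m * (X * (m / Real.exp 1 * L) ^ m)) *
          (Real.exp 1 / (m * (L - 1))) ^ m := mul_le_mul_of_nonneg_right e2 hQ
      _ = (1 - s) ^ m * X * ((m / Real.exp 1 * L) ^ m *
          (Real.exp 1 / (m * (L - 1))) ^ m) := by ring
      _ ≤ Real.exp (-r) * X * Real.exp 1 := by
          apply mul_le_mul _ e4 (by positivity) (by positivity)
          exact mul_le_mul_of_nonneg_right e3 hX0.le
      _ = _ := by ring
  refine ⟨hw1, ?_⟩
  intro Bs hBc hBy
  obtain ⟨w', w1, w2⟩ := block_law_odd (I := Bs) (N := N) (m := m) (L := L) (θ := θ)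
    (δ := (1 - θ) / (4 * B)) (by rw [hBc, ← hN]) (by omega) (by linarith) hBy hθ0.le
    (by
      rw [hθ2, hNr]
      have e1 : Real.exp (-σ) * (Real.exp (-σ) * Real.exp (2 * σ)) = 1 := by
        rw [← Real.exp_add, ← Real.exp_add]
        norm_num
        ring
      have hes := Real.exp_pos (-σ)
      calc (m : ℝ) = Real.exp (-σ) * (1 / L * Real.exp (-σ) * (Real.exp (2 * σ) * (m * L))) := by
            have : Real.exp (-σ) * (1 / L * Real.exp (-σ) * (Real.exp (2 * σ) * (m * L))) =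
              (Real.exp (-σ) * (Real.exp (-σ) * Real.exp (2 * σ))) * (1 / L * (m * L)) := by
              ring
            rw [this, e1]
            field_simp
        _ ≤ Real.exp (-σ) * (1 / L * (1 - 1 / L) * ((w : ℝ) - m)) := by
            apply mul_le_mul_of_nonneg_left _ hes.le
            apply mul_le_mul _ hwm (by positivity) (by positivity)
            exact mul_le_mul_of_nonneg_left l3 (by positivity))
    (by positivity)
    (by
      rw [div_lt_one (by positivity)]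
      linarith)
    (by
      have h5 : (1 + m / ((N : ℝ) - m + 1)) * KK (N + 1) m (1 / (L - 1)) ≤ 2 * B := by
        apply mul_le_mul (by linarith) hKK _ (by norm_num)
        unfold KK
        positivity
      calc (1 - θ) / (4 * B) * ((1 + m / ((N : ℝ) - m + 1)) * KK (N + 1) m (1 / (L - 1)))
          ≤ (1 - θ) / (4 * B) * (2 * B) := mul_le_mul_of_nonneg_left h5 (by positivity)
        _ = (1 - θ) / 2 := by
            field_simp
            norm_num
        _ ≤ _ := by linarith)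
  refine ⟨w', w1, le_trans ?_ w2⟩
  have h5 : 4 / X ≤ 1 / 2 * ((1 - θ) / (4 * B)) := by
    rw [mul_div_assoc', div_le_div_iff₀ hX0 (by positivity)]
    have h6 := mul_le_mul_of_nonneg_right m3 hX0.le
    have h7 : 32 * Real.exp 1 * Real.exp (-r) * X = 32 * (Real.exp 1 * Real.exp (-r) * X) := by
      ring
    linarith
  exact h5.trans (mul_le_mul_of_nonneg_right hL11 (by positivity))

end Q167.SQ
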