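import Pool.Agent.Q167.SQ.A

/-! # Windows at sparse places: upper bounds -/

set_option autoImplicit false

namespace Q167.SQ

open Finset MeasureTheory Filter Topology Q198.CI Q167.LI

/-- windows at places are nonempty from some place on -/
theorem places_upper {Ω : Type*} [MeasurableSpace Ω] (P : Measure Ω) [IsProbabilityMeasure P]
    {E : ℕ → Set Ω} {κ : ℕ → ℕ} (hE : ∀ n, MeasurableSet (E n))
    (hT : ∀ T : Finset ℕ, (∀ n ∈ T, 3 ≤ n ∧ T.card ≤ κ n) →
      P (⋂ n ∈ T, E n) = ENNReal.ofReal (∏ n ∈ T, 1 / Real.log n))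
    {W : ℕ → Finset ℕ} {m : ℕ → ℕ} {L s : ℕ → ℝ}
    (h : ∀ᶠ n : ℕ in atTop, 1 ≤ m n ∧ m n ≤ (W n).card ∧ 0 < L n ∧
      (∀ y ∈ W n, 3 ≤ y ∧ Real.log y ≤ L n ∧ 2 * m n ≤ κ y) ∧
      1 / ((Real.exp 1 * ((((W n).card : ℝ) - m n + 1) * (1 / L n)) / m n) ^ m n /
        (Real.exp 1 * m n)) ≤ s n)
    (hs : Summable s) :
    ∀ᵐ ω ∂P, ∀ᶠ n : ℕ in atTop, ∃ y ∈ W n, ω ∈ E y := by
  classical
  obtain ⟨n₀, hn₀⟩ := eventually_atTop.1 h
  set A : ℕ → Finset ℕ := fun n => if n₀ ≤ n then {0} else ∅ with hA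
  have hmemA : ∀ i k, k ∈ A i → n₀ ≤ i := by
    intro i k hk
    simp only [hA] at hk
    split_ifs at hk with h1
    · exact h1
    · simp at hk
  have hbc := fam_upper P hE (W := fun i _ => W i) (A := A) (m := m) (p := cp)
    (Kq := fun i => (Real.exp 1 * ((((W i).card : ℝ) - m i + 1) * (1 / L i)) / m i) ^ m i /
      (Real.exp 1 * m i))
    (s := fun i => |s i|)
    (by
      intro i k hk y hy
      obtain ⟨-, -, -, h4, -⟩ := hn₀ i (hmemA i k hk)
      obtain ⟨h5, -, -⟩ := h4 y hy
      refine ⟨cp_nonneg y, ?_⟩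
      unfold cp
      rw [if_pos h5, div_lt_one (by linarith [one_lt_log h5])]
      exact one_lt_log h5)
    (by
      intro i k hk T hTW hTc
      obtain ⟨-, -, -, h4, -⟩ := hn₀ i (hmemA i k hk)
      have hn3 : ∀ n ∈ T, 3 ≤ n ∧ T.card ≤ κ n := by
        intro n hn
        obtain ⟨h5, -, h6⟩ := h4 n (hTW hn)
        exact ⟨h5, hTc.trans h6⟩
      rw [hT T hn3]
      congr 1
      refine prod_congr rfl fun n hn => ?_
      unfold cp
      rw [if_pos (hn3 n hn).1])
    (by
      rintro i ⟨k, hk⟩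
      obtain ⟨h1, h2, h3, -, -⟩ := hn₀ i (hmemA i k hk)
      have hm0 : (0:ℝ) < m i := by exact_mod_cast h1
      have h4 : (m i : ℝ) ≤ (W i).card := by exact_mod_cast h2
      have h5 : 0 < ((W i).card : ℝ) - m i + 1 := by linarith
      positivity)
    (by
      intro i k hk
      obtain ⟨h1, h2, h3, h4, -⟩ := hn₀ i (hmemA i k hk)
      refine (choose_mul_ge h1 h2 (by positivity)).trans ?_
      apply sum_ge_choose (by positivity)
      intro n hn
      obtain ⟨h5, h6, -⟩ := h4 n hn
      have hlog := one_lt_log h5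
      have h7 : cp n = 1 / Real.log n := by
        unfold cp
        rw [if_pos h5]
      have h8 : cp n < 1 := by
        rw [h7, div_lt_one (by linarith)]
        exact hlog
      have h9 : cp n ≤ cp n / (1 - cp n) := by
        rw [le_div_iff₀ (by linarith)]
        have := cp_nonneg n
        nlinarith
      refine le_trans ?_ h9
      rw [h7]
      exact one_div_le_one_div_of_le (by linarith) h6)
    hs.abs
    (fun i => abs_nonneg _)
    (by
      rintro i ⟨k, hk⟩
      have hi := hmemA i k hk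
      obtain ⟨-, -, -, -, h5⟩ := hn₀ i hi
      have h6 : (A i).card = 1 := by
        simp only [hA]
        rw [if_pos hi, card_singleton]
      rw [h6, Nat.cast_one]
      exact h5.trans (le_abs_self _))
  filter_upwards [hbc] with ω hω
  obtain ⟨J, hJ⟩ := hω.bddAbove
  filter_upwards [eventually_gt_atTop (max J n₀)] with n hn
  by_contra hcon
  push Not at hcon
  have h1 : n ∈ {i | ∃ k ∈ A i, ∀ n ∈ W i, ω ∉ E n} := by
    refine ⟨0, ?_, hcon⟩
    simp only [hA]
    rw [if_pos ((le_max_right _ _).trans hn.le)]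
    exact mem_singleton_self 0
  have h2 := hJ h1
  have h3 := le_max_left J n₀
  omega

lemma log_sq_add {n y : ℕ} (hn : 2 ≤ n) (hy : y ≤ n ^ 2 + 2 * n) (hy0 : 0 < y) :
    Real.log y ≤ 3 * Real.log n := by
  have h1 : y ≤ n ^ 3 := by
    have h2 : n ^ 2 + 2 * n ≤ n ^ 3 := by
      have h3 : n ^ 3 = n * (n * n) := by ring
      have h4 : n ^ 2 + 2 * n = n * (n + 2) := by ring
      rw [h3, h4]
      apply Nat.mul_le_mul_left
      nlinarith
    omega
  have h2 : (y : ℝ) ≤ (n : ℝ) ^ 3 := by exact_mod_cast h1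
  have h3 := Real.log_le_log (by exact_mod_cast hy0) h2
  rw [Real.log_pow] at h3
  exact_mod_cast h3

/-- fixed order: the windows after the squares are nonempty from some place on -/
theorem crit_upper {Ω : Type*} [MeasurableSpace Ω] (P : Measure Ω) [IsProbabilityMeasure P]
    {E : ℕ → Set Ω} {κ : ℕ → ℕ} (hE : ∀ n, MeasurableSet (E n))
    (hT : ∀ T : Finset ℕ, (∀ n ∈ T, 3 ≤ n ∧ T.card ≤ κ n) →
      P (⋂ n ∈ T, E n) = ENNReal.ofReal (∏ n ∈ T, 1 / Real.log n))
    {m : ℕ} (hm : 1 ≤ m) (hκ : ∀ᶠ n : ℕ in atTop, 2 * m ≤ κ n) {w : ℕ → ℕ}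
    (hw1 : ∀ n, 1 ≤ n → 1 ≤ w n) (hw2 : ∀ n, 1 ≤ n → w n ≤ 2 * n)
    (hs : Summable fun n : ℕ => (Real.log n / w n) ^ m) :
    ∀ᵐ ω ∂P, ∀ᶠ n : ℕ in atTop, ∃ y : ℕ, n ^ 2 < y ∧ y ≤ n ^ 2 + w n ∧ ω ∈ E y := by
  have hm0 : (0:ℝ) < m := by exact_mod_cast hm
  have he := Real.exp_pos 1
  obtain ⟨n₁, hn₁⟩ := eventually_atTop.1 hκ
  have h1 := places_upper P hE hT (W := fun n => Ioc (n ^ 2) (n ^ 2 + w n)) (m := fun _ => m)
    (L := fun n => 3 * Real.log n)
    (s := fun n => Real.exp 1 * m * (6 * m) ^ m * (Real.log n / w n) ^ m)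
    (by
      have ht := hs.tendsto_atTop_zero
      have hq : (0:ℝ) < (1 / (2 * m)) ^ m := by positivity
      filter_upwards [ht.eventually_lt_const hq, eventually_ge_atTop (max n₁ 3),
        tendsto_log_nat.eventually_ge_atTop 1] with n g1 g2 g3
      have hn3 : 3 ≤ n := (le_max_right _ _).trans g2
      have hnn : n₁ ≤ n := (le_max_left _ _).trans g2
      have hw0 : (0:ℝ) < w n := by exact_mod_cast hw1 n (by omega)
      have g4 : Real.log n / w n < 1 / (2 * m) := by
        by_contra hcon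
        push Not at hcon
        exact absurd (pow_le_pow_left₀ (by positivity) hcon m) (not_le.2 g1)
      rw [div_lt_div_iff₀ hw0 (by positivity), one_mul] at g4
      have g5 : 2 * (m : ℝ) ≤ w n := by nlinarith
      have g6 : 2 * m ≤ w n := by exact_mod_cast g5
      have hcard : (Ioc (n ^ 2) (n ^ 2 + w n)).card = w n := by
        rw [Nat.card_Ioc]
        omega
      rw [hcard]
      refine ⟨hm, by omega, by linarith, ?_, ?_⟩
      · intro y hy
        rw [mem_Ioc] at hy
        have h2 : n ≤ n ^ 2 := Nat.le_self_pow two_ne_zero n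
        have h3 := hw2 n (by omega)
        refine ⟨by omega, log_sq_add (by omega) (by omega) (by omega), ?_⟩
        exact hn₁ y (by omega)
      · have h2 : (w n : ℝ) / 2 ≤ (w n : ℝ) - m + 1 := by linarith
        have hl0 : 0 < Real.log n := by linarith
        have h3 : (w n : ℝ) / (6 * m * Real.log n) ≤
            Real.exp 1 * (((w n : ℝ) - m + 1) * (1 / (3 * Real.log n))) / m := by
          have h4 : (1:ℝ) ≤ Real.exp 1 := Real.one_le_exp (by norm_num)
          have h5 : (w n : ℝ) / (6 * m * Real.log n) =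
              1 * ((w n : ℝ) / 2 * (1 / (3 * Real.log n))) / m := by
            field_simp
            norm_num
          rw [h5]
          apply div_le_div_of_nonneg_right _ hm0.le
          apply mul_le_mul h4 _ (by positivity) he.le
          exact mul_le_mul_of_nonneg_right h2 (by positivity)
        have h4 := pow_le_pow_left₀ (by positivity) h3 m
        have h5 : (0:ℝ) < ((w n : ℝ) / (6 * m * Real.log n)) ^ m := by positivity
        rw [one_div_div]
        calc Real.exp 1 * m / (Real.exp 1 * (((w n : ℝ) - m + 1) * (1 / (3 * Real.log n))) / m) ^ m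
            ≤ Real.exp 1 * m / ((w n : ℝ) / (6 * m * Real.log n)) ^ m :=
              div_le_div_of_nonneg_left (by positivity) h5 h4
          _ = _ := by
              rw [div_pow, div_pow, mul_pow (6 * (m : ℝ))]
              field_simp)
    (hs.mul_left _)
  filter_upwards [h1] with ω hω
  filter_upwards [hω] with n hn
  obtain ⟨y, hy, hyE⟩ := hn
  rw [mem_Ioc] at hy
  exact ⟨y, hy.1, hy.2, hyE⟩

lemma summable_log : Summable fun n : ℕ => 1 / ((n : ℝ) * ((Nat.log 2 n : ℝ) + 1) ^ 2) := by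
  have h0 : ∀ n : ℕ, 0 ≤ 1 / ((n : ℝ) * ((Nat.log 2 n : ℝ) + 1) ^ 2) := by
    intro n
    positivity
  rw [← summable_condensed_iff_of_nonneg h0]
  · have h1 : (fun k : ℕ => (2:ℝ) ^ k * (1 / (((2 ^ k : ℕ) : ℝ) *
        ((Nat.log 2 (2 ^ k) : ℝ) + 1) ^ 2))) = fun k : ℕ => 1 / ((k : ℝ) + 1) ^ 2 := by
      funext k
      rw [Nat.log_pow (by norm_num)]
      push_cast
      field_simp
    rw [h1]
    have h2 := (summable_nat_add_iff 1).2 (Real.summable_one_div_nat_pow.2 (one_lt_two))
    refine h2.congr fun j => ?_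
    push_cast
    rfl
  · intro a b ha hab
    have ha0 : (0:ℝ) < a := by exact_mod_cast ha
    have h1 : (a : ℝ) ≤ b := by exact_mod_cast hab
    have h2 : (Nat.log 2 a : ℝ) ≤ Nat.log 2 b := by exact_mod_cast Nat.log_mono_right hab
    apply one_div_le_one_div_of_le (by positivity)
    apply mul_le_mul h1 _ (by positivity) (by positivity)
    apply pow_le_pow_left₀ (by positivity)
    linarith

end Q167.SQ
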