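import Pool.Agent.Q167.SQ.B

/-! # Gaps after the squares: upper bound for every order of independence -/

set_option autoImplicit false

namespace Q167.SQ

open Finset MeasureTheory Filter Topology Q198.CI Q167.LI

lemma fast_sq {κ : ℕ → ℕ} (hκ : Fast κ) : Fast (fun n => κ (n ^ 2)) := by
  intro C
  have hsq : Tendsto (fun n : ℕ => n ^ 2) atTop atTop := tendsto_pow_atTop two_ne_zero
  filter_upwards [hsq.eventually (hκ |C|), tendsto_log_nat.eventually_ge_atTop 1,
    eventually_ge_atTop 1] with n h1 h2 h3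
  refine le_trans ?_ h1
  have h4 : Real.log n ≤ Real.log ((n ^ 2 : ℕ) : ℝ) := by
    apply Real.log_le_log (by exact_mod_cast h3)
    exact_mod_cast Nat.le_self_pow two_ne_zero n
  have h5 : Real.log (Real.log n) ≤ Real.log (Real.log ((n ^ 2 : ℕ) : ℝ)) :=
    Real.log_le_log (by linarith) h4
  have h6 : 0 ≤ Real.log (Real.log n) := Real.log_nonneg h2
  have h7 : C ≤ |C| := le_abs_self C
  have h8 : 0 ≤ |C| := abs_nonneg C
  nlinarith

lemma ord_le_log {κ : ℕ → ℕ} {n : ℕ} (hn : 1 ≤ n) : (ord κ n : ℝ) ≤ Real.log n := by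
  have h1 : ord κ n ≤ ⌊Real.log n⌋₊ := min_le_right _ _
  refine le_trans (by exact_mod_cast h1) (Nat.floor_le (Real.log_nonneg ?_))
  exact_mod_cast hn

lemma log_log_bound : ∀ᶠ n : ℕ in atTop,
    2 * Real.log ((Nat.log 2 n : ℝ) + 1) ≤ 4 * Real.log (Real.log n) := by
  filter_upwards [tendsto_log_nat.eventually_ge_atTop 3, eventually_ge_atTop 1] with n h1 h2
  have hl2 : 0 < Real.log 2 := Real.log_pos (by norm_num)
  have hl2' := Real.log_two_gt_d9
  have h3 : (Nat.log 2 n : ℝ) * Real.log 2 ≤ Real.log n := by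
    have h4 : 2 ^ Nat.log 2 n ≤ n := Nat.pow_log_le_self 2 (by omega)
    have h5 : ((2:ℝ) ^ Nat.log 2 n) ≤ n := by exact_mod_cast h4
    have h6 := Real.log_le_log (by positivity) h5
    rwa [Real.log_pow] at h6
  have h7 : (Nat.log 2 n : ℝ) + 1 ≤ Real.log n ^ 2 := by
    have h8 : (0:ℝ) ≤ Nat.log 2 n := Nat.cast_nonneg _
    nlinarith
  have h9 : Real.log ((Nat.log 2 n : ℝ) + 1) ≤ Real.log (Real.log n ^ 2) :=
    Real.log_le_log (by positivity) h7
  rw [Real.log_pow] at h9
  push_cast at h9
  linarith

/-- the length of the gaps after the squares -/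
noncomputable def gS (κ : ℕ → ℕ) (n : ℕ) : ℝ :=
  HH (ord (fun n => κ (n ^ 2)) n) (Real.log n) (2 * Real.log n)

/-- upper bound for the gaps after the squares -/
theorem sq_upper {Ω : Type*} [MeasurableSpace Ω] (P : Measure Ω) [IsProbabilityMeasure P]
    {E : ℕ → Set Ω} {κ : ℕ → ℕ} (hE : ∀ n, MeasurableSet (E n))
    (hT : ∀ T : Finset ℕ, (∀ n ∈ T, 3 ≤ n ∧ T.card ≤ κ n) →
      P (⋂ n ∈ T, E n) = ENNReal.ofReal (∏ n ∈ T, 1 / Real.log n))
    (hmono : Monotone κ) (hκ : Fast κ) {ε : ℝ} (hε : 0 < ε) (hε1 : ε ≤ 1) :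
    ∀ᵐ ω ∂P, ∀ᶠ n : ℕ in atTop, ∃ y : ℕ, n ^ 2 < y ∧
      (y : ℝ) ≤ (n : ℝ) ^ 2 + (1 + ε) * gS κ n ∧ ω ∈ E y := by
  have he := Real.exp_pos 1
  set κ' : ℕ → ℕ := fun n => κ (n ^ 2) with hκ'
  have hf := fast_sq hκ
  set v : ℝ := 1 + ε / 16 with hv
  have hv1 : 1 < v := by rw [hv]; linarith
  have hv0 : 0 < v := by linarith
  have hlv : 0 < Real.log v := Real.log_pos hv1
  have hll : Tendsto (fun n : ℕ => Real.log (Real.log (n : ℝ))) atTop atTop :=
    Real.tendsto_log_atTop.comp tendsto_log_nat
  have hsmall : ∀ᶠ n : ℕ in atTop, 2 * (Real.log n / Real.exp 1 *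
      Real.exp (Real.log n / 2) * (2 * Real.log n)) ≤ (n : ℝ) ^ 2 := by
    have t3 := Real.tendsto_pow_mul_exp_neg_atTop_nhds_zero 2
    have t4 : Tendsto (fun n : ℕ => 4 * (Real.log n ^ 2 * Real.exp (-Real.log n))) atTop
        (𝓝 (4 * 0)) := (t3.comp tendsto_log_nat).const_mul _
    rw [mul_zero] at t4
    filter_upwards [t4.eventually_le_const zero_lt_one, eventually_ge_atTop 1,
      tendsto_log_nat.eventually_ge_atTop 0] with n h1 h2 h3
    have hn0 : (0:ℝ) < n := by exact_mod_cast h2
    have hn1 : (1:ℝ) ≤ n := by exact_mod_cast h2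
    rw [Real.exp_neg, Real.exp_log hn0] at h1
    have e1 : 4 * (Real.log n ^ 2 * (n : ℝ)⁻¹) = 4 * Real.log n ^ 2 / n := by
      field_simp
    rw [e1, div_le_one hn0] at h1
    have h4 : Real.exp (Real.log n / 2) ≤ n := by
      calc Real.exp (Real.log n / 2) ≤ Real.exp (Real.log n) := Real.exp_le_exp.2 (by linarith)
        _ = n := Real.exp_log hn0
    have h5 : Real.log n / Real.exp 1 ≤ Real.log n := by
      apply div_le_self h3
      exact Real.one_le_exp (by norm_num)
    calc 2 * (Real.log n / Real.exp 1 * Real.exp (Real.log n / 2) * (2 * Real.log n))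
        ≤ 2 * (Real.log n * n * (2 * Real.log n)) := by
          apply mul_le_mul_of_nonneg_left _ (by norm_num)
          apply mul_le_mul_of_nonneg_right _ (by linarith)
          apply mul_le_mul h5 h4 (Real.exp_pos _).le h3
      _ = (4 * Real.log n ^ 2) * n := by ring
      _ ≤ n * n := mul_le_mul_of_nonneg_right h1 hn0.le
      _ = _ := by ring
  have h1 := places_upper P hE hT
    (W := fun n => Ioc (n ^ 2) (n ^ 2 + ⌊(1 + ε) * gS κ n⌋₊)) (m := fun n => ord κ' n)
    (L := fun n => 2 * Real.log n + 1)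
    (s := fun n => Real.exp 1 * Real.exp 1 * (16 / ε) *
      (1 / ((n : ℝ) * ((Nat.log 2 n : ℝ) + 1) ^ 2)))
    (by
      filter_upwards [ord_fast hf 1, ord_fast hf (4 / Real.log v), hll.eventually_ge_atTop 2,
        eventually_ge_atTop 3, tendsto_log_nat.eventually_ge_atTop (max 1 (2 / ε)), hsmall,
        log_log_bound] with n g1 g2 g3 g4 g5 g6 g7
      set m : ℕ := ord κ' n with hm
      set ℓ : ℝ := Real.log n with hℓ
      have hℓ1 : 1 ≤ ℓ := (le_max_left _ _).trans g5
      have hℓ2 : 2 / ε ≤ ℓ := (le_max_right _ _).trans g5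
      have hn0 : (0:ℝ) < n := by exact_mod_cast (by omega : 0 < n)
      have hm2 : (2:ℝ) ≤ m := by linarith
      have hm2' : 2 ≤ m := by exact_mod_cast hm2
      have hm0 : (0:ℝ) < m := by linarith
      have hmℓ : (m : ℝ) ≤ ℓ := ord_le_log (by omega)
      set g : ℝ := gS κ n with hg
      have hgdef : g = HH m ℓ (2 * ℓ) := rfl
      have hg0 : 0 < g := by rw [hgdef]; exact HH_pos (by omega) (by linarith)
      have hglow : m * (2 * ℓ) ≤ g := by
        have := HH_low (m := m) (ℓ := ℓ) (L := 2 * ℓ) (τ := 0) (by omega) (by linarith)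
          (by rw [add_zero, one_mul]; exact hmℓ)
        rwa [Real.exp_zero, one_mul] at this
      have hgm : (m : ℝ) ≤ ε / 2 * g := by
        rw [div_le_iff₀ hε] at hℓ2
        have h2 : ε / 2 * (m * (2 * ℓ)) ≤ ε / 2 * g :=
          mul_le_mul_of_nonneg_left hglow (by positivity)
        nlinarith
      have hgup : 2 * g ≤ (n : ℝ) ^ 2 := by
        refine le_trans ?_ g6
        apply mul_le_mul_of_nonneg_left _ (by norm_num)
        rw [hgdef]
        unfold HH
        apply mul_le_mul_of_nonneg_right _ (by linarith)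
        apply mul_le_mul (div_le_div_of_nonneg_right hmℓ he.le) _ (Real.exp_pos _).le
          (by positivity)
        apply Real.exp_le_exp.2
        exact div_le_div_of_nonneg_left (by linarith) two_pos hm2
      set w : ℕ := ⌊(1 + ε) * g⌋₊ with hw
      have hwle : (w : ℝ) ≤ (1 + ε) * g := Nat.floor_le (by positivity)
      have hwlt : (1 + ε) * g < w + 1 := Nat.lt_floor_add_one _
      have hwn : w ≤ n ^ 2 := by
        have : (w : ℝ) ≤ (n : ℝ) ^ 2 := by nlinarith
        exact_mod_cast this
      have hcard : (Ioc (n ^ 2) (n ^ 2 + w)).card = w := by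
        rw [Nat.card_Ioc]
        omega
      have hmw : m ≤ w := by
        apply Nat.le_floor
        nlinarith
      rw [hcard]
      refine ⟨by omega, hmw, by linarith, ?_, ?_⟩
      · intro y hy
        rw [mem_Ioc] at hy
        have h2 : n ≤ n ^ 2 := Nat.le_self_pow two_ne_zero n
        refine ⟨by omega, ?_, ?_⟩
        · have h3 : (y : ℝ) ≤ Real.exp (2 * ℓ + 1) := by
            have h4 : (y : ℝ) ≤ 2 * (n : ℝ) ^ 2 := by
              have : y ≤ 2 * n ^ 2 := by omega
              exact_mod_cast this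
            have h5 : Real.exp (2 * ℓ + 1) = (n : ℝ) ^ 2 * Real.exp 1 := by
              rw [Real.exp_add, mul_comm 2 ℓ, Real.exp_mul, Real.exp_log hn0]
              norm_num
            rw [h5]
            have h6 : (2:ℝ) ≤ Real.exp 1 := by
              have := Real.add_one_le_exp 1
              linarith
            nlinarith [sq_nonneg (n : ℝ)]
          rw [Real.log_le_iff_le_exp (by exact_mod_cast (by omega : 0 < y))]
          exact h3
        · have h3 : m ≤ κ' n / 2 := min_le_left _ _
          have h4 : κ' n ≤ κ y := hmono hy.1.le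
          omega
      · have h2 : (1 + ε / 2) * g ≤ (w : ℝ) - m + 1 := by linarith
        set b : ℝ := (1 + ε / 2) * Real.exp (ℓ / m) * (2 * ℓ / (2 * ℓ + 1)) with hb
        have hb0 : 0 < b := by positivity
        have h3 : b ≤ Real.exp 1 * (((w : ℝ) - m + 1) * (1 / (2 * ℓ + 1))) / m := by
          have e1 : b = Real.exp 1 * (((1 + ε / 2) * g) * (1 / (2 * ℓ + 1))) / m := by
            rw [hb, hgdef]
            unfold HH
            field_simp
          rw [e1]
          apply div_le_div_of_nonneg_right _ hm0.le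
          apply mul_le_mul_of_nonneg_left _ he.le
          exact mul_le_mul_of_nonneg_right h2 (by positivity)
        have h4 := pow_le_pow_left₀ hb0.le h3 m
        have h5 : (1 + ε / 2) ^ m * (n * Real.exp (-1)) ≤ b ^ m := by
          rw [hb, mul_pow, mul_pow, mul_assoc]
          apply mul_le_mul_of_nonneg_left _ (by positivity)
          have e1 : Real.exp (ℓ / m) ^ m = n := by
            rw [← Real.exp_nat_mul]
            have : (m : ℝ) * (ℓ / m) = ℓ := by field_simp
            rw [this, hℓ, Real.exp_log hn0]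
          rw [e1]
          apply mul_le_mul_of_nonneg_left _ hn0.le
          have h6 : (2 * ℓ + 1) / (2 * ℓ) ≤ Real.exp (1 / (2 * ℓ)) := by
            have := Real.add_one_le_exp (1 / (2 * ℓ))
            rw [add_div, div_self (by linarith)]
            linarith
          have h7 : ((2 * ℓ + 1) / (2 * ℓ)) ^ m ≤ Real.exp 1 := by
            refine (pow_le_pow_left₀ (by positivity) h6 m).trans ?_
            rw [← Real.exp_nat_mul]
            apply Real.exp_le_exp.2
            rw [mul_one_div, div_le_one (by linarith)]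
            linarith
          have h8 : (2 * ℓ / (2 * ℓ + 1)) ^ m = (((2 * ℓ + 1) / (2 * ℓ)) ^ m)⁻¹ := by
            rw [← inv_pow, inv_div]
          rw [h8, Real.exp_neg]
          apply inv_anti₀ (by positivity) h7
        have h9 : (m : ℝ) ≤ 16 / ε * v ^ m := by
          have h10 := one_add_mul_le_pow (a := ε / 16) (by linarith) m
          have h11 : (m : ℝ) * (ε / 16) ≤ v ^ m := by
            rw [hv]
            linarith
          rw [div_mul_eq_mul_div, le_div_iff₀ hε]
          linarith
        have h10 : v ^ 3 ≤ 1 + ε / 2 := by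
          rw [hv]
          nlinarith [mul_pos hε hε]
        have h11 : (v ^ m) ^ 3 ≤ (1 + ε / 2) ^ m := by
          rw [← pow_mul, mul_comm, pow_mul]
          exact pow_le_pow_left₀ (by positivity) h10 _
        have h12 : ((Nat.log 2 n : ℝ) + 1) ^ 2 ≤ v ^ m := by
          have h13 : ((Nat.log 2 n : ℝ) + 1) ^ 2 =
              Real.exp (2 * Real.log ((Nat.log 2 n : ℝ) + 1)) := by
            have h14 : (2 : ℝ) * Real.log ((Nat.log 2 n : ℝ) + 1) =
                Real.log (((Nat.log 2 n : ℝ) + 1) ^ 2) := by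
              rw [Real.log_pow]
              norm_num
            rw [h14, Real.exp_log (by positivity)]
          have h14 : v ^ m = Real.exp (Real.log v * m) := by
            rw [← Real.rpow_natCast, Real.rpow_def_of_pos hv0]
          rw [h13, h14]
          apply Real.exp_le_exp.2
          rw [div_mul_eq_mul_div, div_le_iff₀ hlv] at g2
          linarith
        have hvp : 0 < v ^ m := pow_pos hv0 _
        have hvp1 : 1 ≤ v ^ m := one_le_pow₀ hv1.le
        rw [one_div_div]
        have hlg : (0:ℝ) < ((Nat.log 2 n : ℝ) + 1) ^ 2 := by positivity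
        calc Real.exp 1 * m /
              (Real.exp 1 * (((w : ℝ) - m + 1) * (1 / (2 * ℓ + 1))) / m) ^ m
            ≤ Real.exp 1 * (16 / ε * v ^ m) / ((v ^ m) ^ 3 * (n * Real.exp (-1))) := by
              apply div_le_div₀ (by positivity) (mul_le_mul_of_nonneg_left h9 he.le)
                (by positivity)
              refine le_trans ?_ (h5.trans h4)
              exact mul_le_mul_of_nonneg_right h11 (by positivity)
          _ = Real.exp 1 * Real.exp 1 * (16 / ε) * (1 / (n * (v ^ m * v ^ m))) := by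
              rw [Real.exp_neg]
              field_simp
          _ ≤ _ := by
              apply mul_le_mul_of_nonneg_left _ (by positivity)
              apply one_div_le_one_div_of_le (by positivity)
              apply mul_le_mul_of_nonneg_left _ hn0.le
              refine h12.trans ?_
              exact le_mul_of_one_le_left hvp.le hvp1)
    (summable_log.mul_left _)
  filter_upwards [h1] with ω hω
  filter_upwards [hω, eventually_ge_atTop 1] with n hn hn1
  obtain ⟨y, hy, hyE⟩ := hn
  rw [mem_Ioc] at hy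
  refine ⟨y, hy.1, ?_, hyE⟩
  have h2 : (y : ℝ) ≤ (n : ℝ) ^ 2 + (⌊(1 + ε) * gS κ n⌋₊ : ℝ) := by exact_mod_cast hy.2
  have h3 : 0 ≤ gS κ n := by
    unfold gS HH
    have : 0 ≤ Real.log (n : ℝ) := Real.log_nonneg (by exact_mod_cast hn1)
    positivity
  have h4 := Nat.floor_le (show 0 ≤ (1 + ε) * gS κ n by positivity)
  linarith

end Q167.SQ
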