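import Pool.Agent.Q167.SQ.C

/-! # Gaps after the squares: lower bounds -/

set_option autoImplicit false

namespace Q167.SQ

open Finset MeasureTheory Filter Topology Q198.CI Q167.LI

lemma sq_disj {w : ℕ → ℕ} {n n' y : ℕ} (hw : w n ≤ 2 * n) (hw' : w n' ≤ 2 * n')
    (h : y ∈ Ioc (n ^ 2) (n ^ 2 + w n)) (h' : y ∈ Ioc (n' ^ 2) (n' ^ 2 + w n')) : n = n' := by
  rw [mem_Ioc] at h h'
  rcases lt_trichotomy n n' with h1 | h1 | h1
  · have h2 : (n + 1) ^ 2 ≤ n' ^ 2 := Nat.pow_le_pow_left h1 2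
    have h3 : (n + 1) ^ 2 = n ^ 2 + 2 * n + 1 := by ring
    omega
  · exact h1
  · have h2 : (n' + 1) ^ 2 ≤ n ^ 2 := Nat.pow_le_pow_left h1 2
    have h3 : (n' + 1) ^ 2 = n' ^ 2 + 2 * n' + 1 := by ring
    omega

lemma log_sq_le {n y : ℕ} (hn : 1 ≤ n) (hy : n ^ 2 < y) : 2 * Real.log n ≤ Real.log y := by
  have h1 : (n : ℝ) ^ 2 ≤ y := by exact_mod_cast hy.le
  have h2 : (0:ℝ) < (n : ℝ) ^ 2 := by
    have : (0:ℝ) < n := by exact_mod_cast hn
    positivity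
  have h3 := Real.log_le_log h2 h1
  rw [Real.log_pow] at h3
  exact_mod_cast h3

lemma fam_lt : ∀ᶠ n : ℕ in atTop, ∀ m : ℕ, 2 ≤ m → (m : ℝ) ≤ Real.log n →
    HH m (Real.log n) (2 * Real.log n) ≤ n := by
  have he := Real.exp_pos 1
  have t3 := Real.tendsto_pow_mul_exp_neg_atTop_nhds_zero 4
  have t4 : Tendsto (fun n : ℕ => 64 * ((Real.log n / 2) ^ 4 * Real.exp (-(Real.log n / 2)))) atTop
      (𝓝 (64 * 0)) :=
    (t3.comp (tendsto_log_nat.atTop_div_const two_pos)).const_mul _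
  rw [mul_zero] at t4
  filter_upwards [t4.eventually_le_const zero_lt_one, eventually_ge_atTop 1,
    tendsto_log_nat.eventually_ge_atTop 2] with n h1 h2 h3 m hm hmℓ
  have hn0 : (0:ℝ) < n := by exact_mod_cast h2
  set ℓ : ℝ := Real.log n with hℓ
  have hm0 : (2:ℝ) ≤ m := by exact_mod_cast hm
  rw [Real.exp_neg] at h1
  have hE := Real.exp_pos (ℓ / 2)
  have e1 : 64 * ((ℓ / 2) ^ 4 * (Real.exp (ℓ / 2))⁻¹) = 4 * ℓ ^ 4 / Real.exp (ℓ / 2) := by
    field_simp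
    norm_num
  rw [e1, div_le_one hE] at h1
  have e2 : Real.exp (ℓ / 2) * Real.exp (ℓ / 2) = n := by
    rw [← Real.exp_add, add_halves, hℓ, Real.exp_log hn0]
  have h4 : Real.exp (ℓ / m) ≤ Real.exp (ℓ / 2) := by
    apply Real.exp_le_exp.2
    exact div_le_div_of_nonneg_left (by linarith) two_pos hm0
  have h5 : (m : ℝ) / Real.exp 1 ≤ ℓ := by
    refine (div_le_self (by linarith) (Real.one_le_exp (by norm_num))).trans hmℓ
  unfold HH
  calc m / Real.exp 1 * Real.exp (ℓ / m) * (2 * ℓ)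
      ≤ ℓ * Real.exp (ℓ / 2) * (2 * ℓ) := by
        apply mul_le_mul_of_nonneg_right _ (by linarith)
        exact mul_le_mul h5 h4 (Real.exp_pos _).le (by linarith)
    _ = (2 * ℓ ^ 2) * Real.exp (ℓ / 2) := by ring
    _ ≤ Real.exp (ℓ / 2) * Real.exp (ℓ / 2) := by
        apply mul_le_mul_of_nonneg_right _ hE.le
        refine le_trans ?_ h1
        have e3 : ℓ ^ 4 = ℓ ^ 2 * ℓ ^ 2 := by ring
        have e4 : (4:ℝ) ≤ ℓ ^ 2 := by nlinarith
        rw [e3]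
        nlinarith
    _ = _ := e2

theorem sq_lower_A {κ : ℕ → ℕ} (hmono : Monotone κ) (hκ : Fast κ) {b' : ℝ} (hb0 : 0 < b')
    (hb2 : b' < 2)
    (hI : ∃ᶠ i : ℕ in atTop, κ (sc (i + 1) ^ 2) = κ (sc i ^ 2) ∧
      (κ (sc i ^ 2) : ℝ) ≤ b' * ((i : ℝ) / 2)) :
    ∃ (Ω : Type) (_ : MeasurableSpace Ω) (P : Measure Ω) (_ : IsProbabilityMeasure P)
      (E : ℕ → Set Ω), (∀ n, MeasurableSet (E n)) ∧
      (∀ T : Finset ℕ, (∀ n ∈ T, 3 ≤ n ∧ T.card ≤ κ n) →
        P (⋂ n ∈ T, E n) = ENNReal.ofReal (∏ n ∈ T, 1 / Real.log n)) ∧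
      ∀ᵐ ω ∂P, ∀ ε : ℝ, 0 < ε → ∃ᶠ n : ℕ in atTop, ∀ y : ℕ, n ^ 2 < y →
        (y : ℝ) ≤ (n : ℝ) ^ 2 + (1 - ε) * gS κ n → ω ∉ E y := by
  classical
  set κ' : ℕ → ℕ := fun n => κ (n ^ 2) with hκ'
  have hmono' : Monotone κ' := fun a b hab => hmono (Nat.pow_le_pow_left hab 2)
  have hf := fast_sq hκ
  have hb3 : 1 < 2 / b' := by
    rw [lt_div_iff₀ hb0]
    linarith
  set σ : ℝ := (2 / b' - 1) / 4 with hσd
  have hσ : 0 < σ := by
    rw [hσd]
    linarith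
  obtain ⟨L₀, M₀, hA⟩ := caseS hσ
  have hmt : Tendsto (fun n => κ' n / 2) atTop atTop :=
    tendsto_atTop_mono (fun n => min_le_left _ _) (ord_tendsto hf)
  have hev : ∀ᶠ n : ℕ in atTop, ⌈M₀⌉₊ + 2 ≤ κ' n / 2 ∧ L₀ ≤ 2 * Real.log n ∧ 1 ≤ Real.log n ∧
      3 ≤ n ∧ (∀ m : ℕ, 2 ≤ m → (m : ℝ) ≤ Real.log n →
        HH m (Real.log n) (2 * Real.log n) ≤ n) := by
    filter_upwards [hmt.eventually_ge_atTop (⌈M₀⌉₊ + 2), tendsto_log_nat.eventually_ge_atTop L₀,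
      tendsto_log_nat.eventually_ge_atTop 1, eventually_ge_atTop 3, fam_lt]
      with n g1 g2 g3 g4 g5
    exact ⟨g1, by linarith, g3, g4, g5⟩
  obtain ⟨n₁, hn₁⟩ := eventually_atTop.1 hev
  set I : Set ℕ := {i | κ' (sc (i + 1)) = κ' (sc i) ∧ (κ' (sc i) : ℝ) ≤ b' * ((i : ℝ) / 2)}
    with hId
  set S : Set ℕ := {n | n₁ ≤ n ∧ ∃ i ∈ I, sc i ≤ n ∧ n < sc (i + 1)} with hS
  set w : ℕ → ℕ := fun n => wS (κ' n / 2) (Real.log n) (2 * Real.log n) with hw
  have facts : ∀ n ∈ S, M₀ ≤ ((κ' n / 2 : ℕ) : ℝ) ∧ 2 ≤ κ' n / 2 ∧ L₀ ≤ 2 * Real.log n ∧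
      ((κ' n / 2 : ℕ) : ℝ) ≤ Real.log n ∧ 1 ≤ Real.log n ∧
      Real.exp (4 * σ) * (((κ' n / 2 : ℕ) : ℝ) * (2 * Real.log n)) ≤
        HH (κ' n / 2) (Real.log n) (2 * Real.log n) ∧
      κ' (n + 1) = κ' n ∧ 3 ≤ n ∧ HH (κ' n / 2) (Real.log n) (2 * Real.log n) ≤ n := by
    rintro n ⟨h0, i, ⟨h1, h2⟩, h3, h4⟩
    obtain ⟨g1, g2, g3, g4, g5⟩ := hn₁ n h0
    have h5 : κ' n = κ' (sc i) := by
      apply le_antisymm
      · rw [← h1]
        exact hmono' h4.le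
      · exact hmono' h3
    have h6 : κ' (n + 1) = κ' n := by
      apply le_antisymm
      · rw [h5, ← h1]
        exact hmono' h4
      · exact hmono' (Nat.le_succ n)
    have hlog : (i : ℝ) / 2 ≤ Real.log n := log_ge_of_sc h3
    have h7 : (κ' n : ℝ) ≤ b' * Real.log n := by
      rw [h5]
      exact h2.trans (mul_le_mul_of_nonneg_left hlog hb0.le)
    have h8 : ((κ' n / 2 : ℕ) : ℝ) ≤ (κ' n : ℝ) / 2 :=
      Nat.cast_div_le.trans (le_of_eq (by norm_num))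
    have h9 : ((κ' n / 2 : ℕ) : ℝ) ≤ Real.log n := by nlinarith
    have h10 : (2:ℝ) ≤ ((κ' n / 2 : ℕ) : ℝ) := by exact_mod_cast (by omega : 2 ≤ κ' n / 2)
    refine ⟨?_, by omega, g2, h9, g3, ?_, h6, g4, g5 _ (by omega) h9⟩
    · refine (Nat.le_ceil M₀).trans ?_
      exact_mod_cast (by omega : ⌈M₀⌉₊ ≤ κ' n / 2)
    · apply HH_low (by omega) (by linarith)
      have h11 : 1 + 4 * σ = 2 / b' := by
        rw [hσd]
        ring
      rw [h11, div_mul_eq_mul_div, div_le_iff₀ hb0]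
      linarith
  have hw2 : ∀ n ∈ S, w n ≤ 2 * n := by
    intro n hn
    obtain ⟨f1, f2, f3, f4, f5, f6, f7, f8, f9⟩ := facts n hn
    have h1 : (w n : ℝ) ≤ n := by
      have hHp : 0 < HH (κ' n / 2) (Real.log n) (2 * Real.log n) :=
        HH_pos (by omega) (by linarith)
      have hm1 : (1:ℝ) ≤ ((κ' n / 2 : ℕ) : ℝ) := by exact_mod_cast (by omega : 1 ≤ κ' n / 2)
      have hs1 : 1 / Real.sqrt ((κ' n / 2 : ℕ) : ℝ) ≤ 1 := by
        rw [div_le_one (Real.sqrt_pos.2 (by linarith)), Real.one_le_sqrt]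
        exact hm1
      have hs0 : 0 ≤ 1 / Real.sqrt ((κ' n / 2 : ℕ) : ℝ) := by positivity
      have h2 := Nat.floor_le (show 0 ≤ (1 - 1 / Real.sqrt ((κ' n / 2 : ℕ) : ℝ)) *
        HH (κ' n / 2) (Real.log n) (2 * Real.log n) from mul_nonneg (by linarith) hHp.le)
      have h3 : (w n : ℝ) ≤ (1 - 1 / Real.sqrt ((κ' n / 2 : ℕ) : ℝ)) *
        HH (κ' n / 2) (Real.log n) (2 * Real.log n) := h2
      refine h3.trans (le_trans ?_ f9)
      exact mul_le_of_le_one_left hHp.le (by linarith)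
    have h2 : w n ≤ n := by exact_mod_cast h1
    omega
  obtain ⟨Ω, mΩ, P, hP, E, hE, hT, hae⟩ := places_model
    (W := fun n => Ioc (n ^ 2) (n ^ 2 + w n)) (κ := κ) (δ := fun n : ℕ => 4 / (n : ℝ)) S
    (fun n => 2 * (κ' n / 2) + 1)
    (fun n n' y hn hn' h h' => sq_disj (hw2 n hn) (hw2 n' hn') h h')
    (by
      intro n hn y hy
      obtain ⟨f1, f2, f3, f4, f5, f6, f7, f8, f9⟩ := facts n hn
      rw [mem_Ioc] at hy
      have h1 := hw2 n hn
      have h2 : κ y ≤ κ' (n + 1) := by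
        apply hmono
        have h3 : (n + 1) ^ 2 = n ^ 2 + 2 * n + 1 := by ring
        omega
      rw [f7] at h2
      omega)
    (by
      intro n hn
      obtain ⟨f1, f2, f3, f4, f5, f6, f7, f8, f9⟩ := facts n hn
      obtain ⟨h1, h2⟩ := hA (κ' n / 2) (Real.log n) (2 * Real.log n) f1 f3 (by linarith) f6
      obtain ⟨w', w1, w2⟩ := h2 (Ioc (n ^ 2) (n ^ 2 + w n)) (by
          rw [Nat.card_Ioc]
          simp only [hw]
          omega) (by
          intro y hy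
          rw [mem_Ioc] at hy
          have h3 : n ≤ n ^ 2 := Nat.le_self_pow two_ne_zero n
          exact ⟨by omega, log_sq_le (by omega) hy.1⟩)
      refine ⟨w', w1, ?_⟩
      rw [Real.exp_log (by exact_mod_cast (by omega : 0 < n))] at w2
      exact w2)
    (fun n => by positivity)
    (by
      apply not_summable_of_blocks tendsto_sc sc_mono
      have hev2 : ∀ᶠ i : ℕ in atTop, n₁ ≤ sc i ∧ 5 ≤ Real.exp ((i : ℝ) / 2) := by
        have h1 : Tendsto (fun i : ℕ => Real.exp ((i : ℝ) / 2)) atTop atTop :=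
          Real.tendsto_exp_atTop.comp (tendsto_natCast_atTop_atTop.atTop_div_const two_pos)
        filter_upwards [tendsto_sc.eventually_ge_atTop n₁, h1.eventually_ge_atTop 5] with i a1 a2
        exact ⟨a1, a2⟩
      refine (hI.and_eventually hev2).mono ?_
      rintro i ⟨hi, a1, a2⟩
      have hiI : i ∈ I := hi
      have h1 : ∀ n ∈ Ico (sc i) (sc (i + 1)),
          4 / (sc (i + 1) : ℝ) ≤ S.indicator (fun n : ℕ => 4 / (n : ℝ)) n := by
        intro n hn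
        rw [mem_Ico] at hn
        have hnS : n ∈ S := ⟨a1.trans hn.1, i, hiI, hn.1, hn.2⟩
        rw [Set.indicator_of_mem hnS]
        have hn0 : (0:ℝ) < n := by
          have := one_le_sc i
          exact_mod_cast (by omega : 0 < n)
        apply div_le_div_of_nonneg_left (by norm_num) hn0
        exact_mod_cast hn.2.le
      refine le_trans ?_ (sum_le_sum h1)
      rw [sum_const, Nat.card_Ico, nsmul_eq_mul, Nat.cast_sub (sc_mono (Nat.le_succ i))]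
      have hs0 : (0:ℝ) < sc (i + 1) := by exact_mod_cast one_le_sc (i + 1)
      rw [mul_div_assoc', le_div_iff₀ hs0, one_mul]
      have h2 := le_sc (i + 1)
      have h3 := sc_lt i
      have h4 : Real.exp (((i + 1 : ℕ) : ℝ) / 2) = Real.exp ((i : ℝ) / 2) * Real.exp (1 / 2) := by
        rw [← Real.exp_add]
        congr 1
        push_cast
        ring
      rw [h4] at h2
      have h5 : (1.6:ℝ) ≤ Real.exp (1 / 2) := by
        have h6 := Real.quadratic_le_exp_of_nonneg (show (0:ℝ) ≤ 1 / 2 by norm_num)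
        norm_num at h6 ⊢
        linarith
      nlinarith)
  refine ⟨Ω, mΩ, P, hP, E, hE, hT, ?_⟩
  filter_upwards [hae] with ω hω
  intro ε hε
  have hev3 : ∀ᶠ n : ℕ in atTop, 1 / Real.sqrt ((κ' n / 2 : ℕ) : ℝ) ≤ ε / 2 ∧
      2 / ε ≤ 2 * Real.log n := by
    have t1 : Tendsto (fun n : ℕ => ((κ' n / 2 : ℕ) : ℝ)) atTop atTop :=
      tendsto_natCast_atTop_atTop.comp hmt
    have t2 : Tendsto (fun n : ℕ => 1 / Real.sqrt ((κ' n / 2 : ℕ) : ℝ)) atTop (𝓝 0) := by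
      refine (tendsto_inv_atTop_zero.comp (Real.tendsto_sqrt_atTop.comp t1)).congr fun M => ?_
      rw [Function.comp_apply, Function.comp_apply, one_div]
    filter_upwards [t2.eventually_le_const (show (0:ℝ) < ε / 2 by positivity),
      (tendsto_log_nat.const_mul_atTop two_pos).eventually_ge_atTop (2 / ε)] with n a1 a2
    exact ⟨a1, a2⟩
  refine (hω.and_eventually hev3).mono ?_
  rintro n ⟨⟨hnS, hn⟩, a1, a2⟩ y hy1 hy2
  apply hn
  obtain ⟨f1, f2, f3, f4, f5, f6, f7, f8, f9⟩ := facts n hnS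
  rw [mem_Ioc]
  refine ⟨hy1, ?_⟩
  have hord : ord (fun n => κ (n ^ 2)) n = κ' n / 2 := by
    unfold ord
    apply min_eq_left
    apply Nat.le_floor
    exact f4
  have hg : gS κ n = HH (κ' n / 2) (Real.log n) (2 * Real.log n) := by
    unfold gS
    rw [hord]
  set g : ℝ := HH (κ' n / 2) (Real.log n) (2 * Real.log n) with hgd
  have hL0 : 0 < 2 * Real.log n := by linarith
  have hg0 : 0 < g := HH_pos (by omega) hL0
  have hm2 : (2:ℝ) ≤ ((κ' n / 2 : ℕ) : ℝ) := by exact_mod_cast f2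
  have hgl : 2 * Real.log n ≤ g := by
    refine le_trans ?_ f6
    have h3 : 1 ≤ Real.exp (4 * σ) := Real.one_le_exp (by positivity)
    have h4 : 2 * Real.log n ≤ ((κ' n / 2 : ℕ) : ℝ) * (2 * Real.log n) :=
      le_mul_of_one_le_left hL0.le (by linarith)
    exact h4.trans (le_mul_of_one_le_left (by positivity) h3)
  have h1 : (1 - 1 / Real.sqrt ((κ' n / 2 : ℕ) : ℝ)) * g < w n + 1 := Nat.lt_floor_add_one _
  rw [hg] at hy2
  have h2 : 1 ≤ ε / 2 * g := by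
    have h3 : 2 / ε ≤ g := a2.trans hgl
    rw [div_le_iff₀ hε] at h3
    linarith
  have h3 := mul_le_mul_of_nonneg_right a1 hg0.le
  have h4 : (y : ℝ) ≤ (n : ℝ) ^ 2 + w n := by
    have e1 : (1 - ε) * g = g - ε / 2 * g - ε / 2 * g := by ring
    have e2 : (1 - 1 / Real.sqrt ((κ' n / 2 : ℕ) : ℝ)) * g =
      g - 1 / Real.sqrt ((κ' n / 2 : ℕ) : ℝ) * g := by ring
    rw [e1] at hy2
    rw [e2] at h1
    linarith
  exact_mod_cast h4

end Q167.SQ
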