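import Pool.Agent.Q167.SQ.D

/-! # Gaps after the squares: large orders, and fixed orders -/

set_option autoImplicit false

namespace Q167.SQ

open Finset MeasureTheory Filter Topology Q198.CI Q167.LI

/-- for large orders the gap function is about `2 log² n` -/
lemma gS_near {κ : ℕ → ℕ} (hB : ∀ b : ℝ, b < 2 → ∀ᶠ n : ℕ in atTop, b * Real.log n ≤ κ (n ^ 2))
    {ε : ℝ} (hε : 0 < ε) : ∀ᶠ n : ℕ in atTop, gS κ n ≤ (1 + ε) * (2 * Real.log n ^ 2) := by
  have he := Real.exp_pos 1
  have hl : 0 < Real.log (1 + ε) := Real.log_pos (by linarith)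
  set η : ℝ := min (1 / 2) (Real.log (1 + ε) / 2) with hη
  have hη0 : 0 < η := lt_min (by norm_num) (by positivity)
  have hη1 : η ≤ 1 / 2 := min_le_left _ _
  have hη2 : η ≤ Real.log (1 + ε) / 2 := min_le_right _ _
  filter_upwards [hB (2 - η) (by linarith), tendsto_log_nat.eventually_ge_atTop (1 / η),
    eventually_ge_atTop 1, tendsto_log_nat.eventually_ge_atTop 1] with n h1 h2 h3 h4
  set ℓ : ℝ := Real.log n with hℓ
  rw [div_le_iff₀ hη0] at h2
  set m : ℕ := ord (fun n => κ (n ^ 2)) n with hm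
  have hmℓ : (m : ℝ) ≤ ℓ := ord_le_log h3
  have hm1 : (1 - η) * ℓ ≤ m := by
    rw [hm]
    unfold ord
    rw [Nat.cast_min]
    apply le_min
    · have h5 : (κ (n ^ 2) : ℝ) ≤ 2 * ((κ (n ^ 2) / 2 : ℕ) : ℝ) + 1 := by
        have : κ (n ^ 2) ≤ 2 * (κ (n ^ 2) / 2) + 1 := by omega
        exact_mod_cast this
      nlinarith
    · have h5 := (Nat.lt_floor_add_one ℓ).le
      nlinarith
  have hm0 : (0:ℝ) < m := by nlinarith
  have h5 : ℓ / m ≤ 1 + 2 * η := by
    rw [div_le_iff₀ hm0]
    nlinarith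
  have h6 : Real.exp (ℓ / m) ≤ Real.exp 1 * (1 + ε) := by
    have h7 : Real.exp 1 * (1 + ε) = Real.exp (1 + Real.log (1 + ε)) := by
      rw [Real.exp_add, Real.exp_log (by linarith)]
    rw [h7]
    apply Real.exp_le_exp.2
    linarith
  have h8 : gS κ n = m / Real.exp 1 * Real.exp (ℓ / m) * (2 * ℓ) := rfl
  rw [h8]
  calc m / Real.exp 1 * Real.exp (ℓ / m) * (2 * ℓ)
      ≤ ℓ / Real.exp 1 * (Real.exp 1 * (1 + ε)) * (2 * ℓ) := by
        apply mul_le_mul_of_nonneg_right _ (by linarith)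
        apply mul_le_mul (div_le_div_of_nonneg_right hmℓ he.le) h6 (Real.exp_pos _).le
          (by positivity)
    _ = _ := by
        field_simp

theorem sq_lower_B {κ : ℕ → ℕ} (hmono : Monotone κ)
    (hB : ∀ b : ℝ, b < 2 → ∀ᶠ n : ℕ in atTop, b * Real.log n ≤ κ (n ^ 2)) :
    ∃ (Ω : Type) (_ : MeasurableSpace Ω) (P : Measure Ω) (_ : IsProbabilityMeasure P)
      (E : ℕ → Set Ω), (∀ n, MeasurableSet (E n)) ∧
      (∀ T : Finset ℕ, (∀ n ∈ T, 3 ≤ n ∧ T.card ≤ κ n) →
        P (⋂ n ∈ T, E n) = ENNReal.ofReal (∏ n ∈ T, 1 / Real.log n)) ∧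
      ∀ᵐ ω ∂P, ∀ ε : ℝ, 0 < ε → ∃ᶠ n : ℕ in atTop, ∀ y : ℕ, n ^ 2 < y →
        (y : ℝ) ≤ (n : ℝ) ^ 2 + (1 - ε) * gS κ n → ω ∉ E y := by
  classical
  have hev : ∀ᶠ n : ℕ in atTop, 4 ≤ Real.log n ∧ 3 ≤ n ∧ 2 * Real.log n ^ 2 ≤ n := by
    have t3 := Real.tendsto_pow_mul_exp_neg_atTop_nhds_zero 2
    have t4 : Tendsto (fun n : ℕ => 2 * (Real.log n ^ 2 * Real.exp (-Real.log n))) atTop
        (𝓝 (2 * 0)) := (t3.comp tendsto_log_nat).const_mul _
    rw [mul_zero] at t4
    filter_upwards [t4.eventually_le_const zero_lt_one, eventually_ge_atTop 3,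
      tendsto_log_nat.eventually_ge_atTop 4] with n h1 h2 h3
    have hn0 : (0:ℝ) < n := by exact_mod_cast (by omega : 0 < n)
    rw [Real.exp_neg, Real.exp_log hn0] at h1
    have e1 : 2 * (Real.log n ^ 2 * (n : ℝ)⁻¹) = 2 * Real.log n ^ 2 / n := by
      field_simp
    rw [e1, div_le_one hn0] at h1
    exact ⟨h3, h2, h1⟩
  obtain ⟨n₁, hn₁⟩ := eventually_atTop.1 hev
  set w : ℕ → ℕ := fun n => ⌊(1 - 1 / Real.sqrt (Real.log n)) * (2 * Real.log n ^ 2)⌋₊ with hw
  set S : Set ℕ := {n | n₁ ≤ n} with hS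
  have facts : ∀ n ∈ S, (w n : ℝ) ≤ (1 - 1 / Real.sqrt (Real.log n)) * (2 * Real.log n ^ 2) ∧
      w n ≤ 2 * n := by
    intro n hn
    obtain ⟨g1, g2, g3⟩ := hn₁ n hn
    have hs : 1 / Real.sqrt (Real.log n) ≤ 1 := by
      rw [div_le_one (Real.sqrt_pos.2 (by linarith)), Real.one_le_sqrt]
      linarith
    have hs0 : 0 ≤ 1 / Real.sqrt (Real.log n) := by positivity
    have h1 : (w n : ℝ) ≤ (1 - 1 / Real.sqrt (Real.log n)) * (2 * Real.log n ^ 2) :=
      Nat.floor_le (mul_nonneg (by linarith) (by positivity))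
    refine ⟨h1, ?_⟩
    have h2 : (w n : ℝ) ≤ n := by
      refine h1.trans (le_trans ?_ g3)
      exact mul_le_of_le_one_left (by positivity) (by linarith)
    have h3 : w n ≤ n := by exact_mod_cast h2
    omega
  obtain ⟨Ω, mΩ, P, hP, E, hE, hT, hae⟩ := places_model
    (W := fun n => Ioc (n ^ 2) (n ^ 2 + w n)) (κ := κ) (δ := fun n : ℕ => 1 / (n : ℝ)) S
    (fun n => κ ((n + 1) ^ 2))
    (fun n n' y hn hn' h h' => sq_disj (facts n hn).2 (facts n' hn').2 h h')
    (by
      intro n hn y hy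
      rw [mem_Ioc] at hy
      have h1 := (facts n hn).2
      apply hmono
      have h3 : (n + 1) ^ 2 = n ^ 2 + 2 * n + 1 := by ring
      omega)
    (by
      intro n hn
      obtain ⟨g1, g2, g3⟩ := hn₁ n hn
      obtain ⟨f1, f2⟩ := facts n hn
      obtain ⟨w', w1, w2⟩ := block_indep (I := Ioc (n ^ 2) (n ^ 2 + w n)) (L := 2 * Real.log n)
        (κ ((n + 1) ^ 2)) (by linarith) (by
          intro y hy
          rw [mem_Ioc] at hy
          have h3 : n ≤ n ^ 2 := Nat.le_self_pow two_ne_zero n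
          exact ⟨by omega, log_sq_le (by omega) hy.1⟩)
      refine ⟨w', w1, le_trans ?_ w2⟩
      rw [Nat.card_Ioc, Nat.add_sub_cancel_left]
      have hn0 : (0:ℝ) < n := by exact_mod_cast (by omega : 0 < n)
      have h1 : 1 / (n : ℝ) = Real.exp (-Real.log n) := by
        rw [Real.exp_neg, Real.exp_log hn0, one_div]
      rw [h1]
      apply Real.exp_le_exp.2
      rw [neg_le_neg_iff, div_le_iff₀ (by linarith)]
      refine f1.trans ?_
      set ℓ : ℝ := Real.log n with hℓ
      have hs : 0 < Real.sqrt ℓ := Real.sqrt_pos.2 (by linarith)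
      have hss : Real.sqrt ℓ * Real.sqrt ℓ = ℓ := Real.mul_self_sqrt (by linarith)
      have hs2 : 1 ≤ Real.sqrt ℓ := by
        rw [Real.one_le_sqrt]
        linarith
      have e1 : (1 - 1 / Real.sqrt ℓ) * (2 * ℓ ^ 2) = 2 * ℓ ^ 2 - 2 * (Real.sqrt ℓ * ℓ) := by
        have : 1 / Real.sqrt ℓ * ℓ ^ 2 = Real.sqrt ℓ * ℓ := by
          rw [div_mul_eq_mul_div, one_mul, div_eq_iff hs.ne']
          calc ℓ ^ 2 = ℓ * ℓ := by ring
            _ = (Real.sqrt ℓ * Real.sqrt ℓ) * ℓ := by rw [hss]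
            _ = _ := by ring
        have h2 : (1 - 1 / Real.sqrt ℓ) * (2 * ℓ ^ 2) =
            2 * ℓ ^ 2 - 2 * (1 / Real.sqrt ℓ * ℓ ^ 2) := by ring
        rw [h2, this]
      rw [e1]
      nlinarith)
    (fun n => by positivity)
    (by
      intro hs
      have h1 := (summable_nat_add_iff n₁).2 hs
      have h2 : (fun n : ℕ => S.indicator (fun n : ℕ => 1 / (n : ℝ)) (n + n₁)) =
          fun n : ℕ => (fun n : ℕ => 1 / (n : ℝ)) (n + n₁) := by
        funext n
        exact Set.indicator_of_mem (show n₁ ≤ n + n₁ by omega) _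
      rw [h2, summable_nat_add_iff n₁ (f := fun n : ℕ => 1 / (n : ℝ))] at h1
      exact Real.not_summable_one_div_natCast h1)
  refine ⟨Ω, mΩ, P, hP, E, hE, hT, ?_⟩
  filter_upwards [hae] with ω hω
  intro ε hε
  have hinv : Tendsto (fun n : ℕ => 1 / Real.sqrt (Real.log (n : ℝ))) atTop (𝓝 0) := by
    refine (tendsto_inv_atTop_zero.comp (Real.tendsto_sqrt_atTop.comp tendsto_log_nat)).congr
      fun M => ?_
    rw [Function.comp_apply, Function.comp_apply, one_div]
  refine (hω.and_eventually ((gS_near hB (ε := ε / 4) (by positivity)).and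
    ((hinv.eventually_le_const (show (0:ℝ) < ε / 4 by positivity)).and
    (tendsto_log_nat.eventually_ge_atTop (max 1 (1 / ε)))))).mono ?_
  rintro n ⟨⟨hnS, hn⟩, a1, a2, a3⟩ y hy1 hy2
  apply hn
  obtain ⟨g1, g2, g3⟩ := hn₁ n hnS
  rw [mem_Ioc]
  refine ⟨hy1, ?_⟩
  have h1 : (1 - 1 / Real.sqrt (Real.log n)) * (2 * Real.log n ^ 2) < w n + 1 :=
    Nat.lt_floor_add_one _
  set ℓ : ℝ := Real.log n with hℓ
  have hg0 : 0 ≤ gS κ n := by
    unfold gS HH
    positivity
  have hε1 : 1 ≤ ε * ℓ ^ 2 := by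
    have h3 : 1 / ε ≤ ℓ := (le_max_right _ _).trans a3
    rw [div_le_iff₀ hε] at h3
    nlinarith
  have h4 : (y : ℝ) ≤ (n : ℝ) ^ 2 + w n := by
    have h5 : (1 - ε) * gS κ n ≤ 2 * ℓ ^ 2 - 3 / 2 * (ε * ℓ ^ 2) := by
      rcases le_or_gt ε 1 with h6 | h6
      · have h7 : (1 - ε) * gS κ n ≤ (1 - ε) * ((1 + ε / 4) * (2 * ℓ ^ 2)) :=
          mul_le_mul_of_nonneg_left a1 (by linarith)
        have h8 : (1 - ε) * ((1 + ε / 4) * (2 * ℓ ^ 2)) =
          2 * ℓ ^ 2 - 3 / 2 * (ε * ℓ ^ 2) - ε ^ 2 / 2 * ℓ ^ 2 := by ring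
        have h9 : 0 ≤ ε ^ 2 / 2 * ℓ ^ 2 := by positivity
        linarith
      · exfalso
        have h7 : (y : ℝ) ≤ (n : ℝ) ^ 2 := by
          have : (1 - ε) * gS κ n ≤ 0 := mul_nonpos_of_nonpos_of_nonneg (by linarith) hg0
          linarith
        have h8 : y ≤ n ^ 2 := by exact_mod_cast h7
        omega
    have h6 : (1 - 1 / Real.sqrt ℓ) * (2 * ℓ ^ 2) = 2 * ℓ ^ 2 - 1 / Real.sqrt ℓ * (2 * ℓ ^ 2) := by
      ring
    have h7 : 1 / Real.sqrt ℓ * (2 * ℓ ^ 2) ≤ ε / 4 * (2 * ℓ ^ 2) :=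
      mul_le_mul_of_nonneg_right a2 (by positivity)
    rw [h6] at h1
    linarith
  exact_mod_cast h4

/-- lower bound for the gaps after the squares -/
theorem sq_lower {κ : ℕ → ℕ} (hmono : Monotone κ) (hκ : Fast κ) :
    ∃ (Ω : Type) (_ : MeasurableSpace Ω) (P : Measure Ω) (_ : IsProbabilityMeasure P)
      (E : ℕ → Set Ω), (∀ n, MeasurableSet (E n)) ∧
      (∀ T : Finset ℕ, (∀ n ∈ T, 3 ≤ n ∧ T.card ≤ κ n) →
        P (⋂ n ∈ T, E n) = ENNReal.ofReal (∏ n ∈ T, 1 / Real.log n)) ∧
      ∀ᵐ ω ∂P, ∀ ε : ℝ, 0 < ε → ∃ᶠ n : ℕ in atTop, ∀ y : ℕ, n ^ 2 < y →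
        (y : ℝ) ≤ (n : ℝ) ^ 2 + (1 - ε) * gS κ n → ω ∉ E y := by
  have hmono' : Monotone (fun n => κ (n ^ 2)) := fun a b hab => hmono (Nat.pow_le_pow_left hab 2)
  by_cases h : ∃ b : ℝ, b < 2 ∧ ∃ᶠ n : ℕ in atTop, (κ (n ^ 2) : ℝ) ≤ b * Real.log n
  · obtain ⟨b, hb, hf⟩ := h
    obtain ⟨b', h1, h2, h3⟩ := good_scales hmono' hb hf
    exact sq_lower_A hmono hκ h1 h2 h3
  · push Not at h
    refine sq_lower_B hmono fun b hb => ?_
    filter_upwards [h b hb] with n hn
    exact hn.le

/-- fixed order: if the series diverges, then in some model infinitely many windows are empty -/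
theorem crit_lower {κ : ℕ → ℕ} {m : ℕ} (hm : 1 ≤ m) (hκ : ∀ n, κ n ≤ 2 * m + 1) {w : ℕ → ℕ}
    (hw1 : ∀ n, 1 ≤ n → 1 ≤ w n) (hw2 : ∀ n, 1 ≤ n → w n ≤ 2 * n)
    (hs : ¬ Summable fun n : ℕ => (Real.log n / w n) ^ m) :
    ∃ (Ω : Type) (_ : MeasurableSpace Ω) (P : Measure Ω) (_ : IsProbabilityMeasure P)
      (E : ℕ → Set Ω), (∀ n, MeasurableSet (E n)) ∧
      (∀ T : Finset ℕ, (∀ n ∈ T, 3 ≤ n ∧ T.card ≤ κ n) →
        P (⋂ n ∈ T, E n) = ENNReal.ofReal (∏ n ∈ T, 1 / Real.log n)) ∧
      ∀ᵐ ω ∂P, ∃ᶠ n : ℕ in atTop, ∀ y : ℕ, n ^ 2 < y → y ≤ n ^ 2 + w n → ω ∉ E y := by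
  classical
  have he := Real.exp_pos 1
  have hm0 : (0:ℝ) < m := by exact_mod_cast hm
  have hm1 : (1:ℝ) ≤ m := by exact_mod_cast hm
  obtain ⟨n₁, hn₁⟩ := eventually_atTop.1 ((tendsto_log_nat.eventually_ge_atTop 2).and
    (eventually_ge_atTop 3))
  set S : Set ℕ := {n | n₁ ≤ n} with hS
  set δ : ℕ → ℝ := fun n => if 32 * m * Real.log n ≤ w n then
    1 / (16 * Real.exp 1) * (Real.log n / w n) ^ m else Real.exp (-(32 * m)) with hδ
  have hδ0 : ∀ n, 0 ≤ δ n := by
    intro n
    simp only [hδ]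
    have : 0 ≤ Real.log (n : ℝ) := Real.log_natCast_nonneg n
    split_ifs
    · positivity
    · positivity
  obtain ⟨Ω, mΩ, P, hP, E, hE, hT, hae⟩ := places_model
    (W := fun n => Ioc (n ^ 2) (n ^ 2 + w n)) (κ := κ) (δ := δ) S (fun _ => 2 * m + 1)
    (by
      intro n n' y hn hn' h h'
      have g1 := (hn₁ n hn).2
      have g2 := (hn₁ n' hn').2
      exact sq_disj (hw2 n (by omega)) (hw2 n' (by omega)) h h')
    (fun n _ y _ => hκ y)
    (by
      intro n hn
      obtain ⟨g1, g2⟩ := hn₁ n hn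
      set L : ℝ := 2 * Real.log n with hL
      have hw1' := hw1 n (by omega)
      have hw0 : (0:ℝ) < w n := by exact_mod_cast hw1'
      have hIW : ∀ y ∈ Ioc (n ^ 2) (n ^ 2 + w n), 3 ≤ y ∧ L ≤ Real.log y := by
        intro y hy
        rw [mem_Ioc] at hy
        have h3 : n ≤ n ^ 2 := Nat.le_self_pow two_ne_zero n
        exact ⟨by omega, log_sq_le (by omega) hy.1⟩
      have hcard : (Ioc (n ^ 2) (n ^ 2 + w n)).card = w n := by
        rw [Nat.card_Ioc, Nat.add_sub_cancel_left]
      have hL4 : 4 ≤ L := by rw [hL]; linarith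
      simp only [hδ]
      split_ifs with hcase
      · have hcase' : 16 * m * L ≤ w n := by
          rw [hL]
          linarith
        have h16 : 64 * (m : ℝ) ≤ 16 * m * L := by nlinarith
        have hwm : 64 * m ≤ w n := by
          have : 64 * (m : ℝ) ≤ w n := h16.trans hcase'
          exact_mod_cast this
        obtain ⟨N, hN⟩ : ∃ N : ℕ, w n = N + 1 := ⟨w n - 1, by omega⟩
        have hNr : (N : ℝ) - m + 1 = (w n : ℝ) - m := by
          rw [hN]
          push_cast
          ring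
        have hhalf : (w n : ℝ) / 2 ≤ (w n : ℝ) - m := by
          have : 64 * (m : ℝ) ≤ w n := h16.trans hcase'
          linarith
        have hLinv : 1 / L ≤ 1 / 4 := one_div_le_one_div_of_le (by norm_num) hL4
        have hη : m / ((N : ℝ) - m + 1) ≤ 1 / 4 := by
          rw [hNr, div_le_iff₀ (by linarith)]
          linarith
        have hη0 : 0 ≤ m / ((N : ℝ) - m + 1) := by
          rw [hNr]
          apply div_nonneg hm0.le
          linarith
        set D : ℝ := Real.exp 1 * (2 * w n / L) ^ m with hD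
        have hbase : 1 ≤ 2 * (w n : ℝ) / L := by
          rw [le_div_iff₀ (by linarith), one_mul]
          nlinarith
        have hD1 : 1 ≤ D := by
          rw [hD]
          have h1 : (1:ℝ) ≤ Real.exp 1 := Real.one_le_exp (by norm_num)
          have h2 : (1:ℝ) ≤ (2 * w n / L) ^ m := one_le_pow₀ hbase
          nlinarith
        have hKK : KK (N + 1) m (1 / (L - 1)) ≤ D := by
          have hL1 : 0 < L - 1 := by linarith
          have ht0 : 0 < (L - 1) / (w n : ℝ) := by positivity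
          have ht1 : (L - 1) / (w n : ℝ) ≤ 1 := by
            rw [div_le_one hw0]
            nlinarith
          refine (KK_le (by positivity) ht0 ht1).trans ?_
          rw [← hN, one_div_div]
          have e1 : (L - 1) / (w n : ℝ) * ((w n : ℝ) * (1 / (L - 1))) = 1 := by
            field_simp
          rw [e1, hD, mul_comm (Real.exp 1)]
          apply mul_le_mul_of_nonneg_right _ he.le
          apply pow_le_pow_left₀ (by positivity)
          rw [div_le_div_iff₀ hL1 (by linarith)]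
          nlinarith
        obtain ⟨w', w1, w2⟩ := block_law_odd (I := Ioc (n ^ 2) (n ^ 2 + w n)) (N := N) (m := m)
          (L := L) (θ := 1 / 2) (δ := 1 / (8 * D)) (by rw [hcard, hN]) (by omega) (by linarith)
          hIW (by norm_num)
          (by
            rw [hNr]
            have h1 : 8 * (m * L) ≤ (w n : ℝ) - m := by linarith
            calc (m : ℝ) = (1 / 2) ^ 2 * (1 / L * (1 / 2) * (8 * (m * L))) := by
                  field_simp
                  norm_num
              _ ≤ (1 / 2) ^ 2 * (1 / L * (1 - 1 / L) * ((w n : ℝ) - m)) := by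
                  apply mul_le_mul_of_nonneg_left _ (by norm_num)
                  have h2 : 1 / L * (1 / 2) ≤ 1 / L * (1 - 1 / L) :=
                    mul_le_mul_of_nonneg_left (by linarith) (by positivity)
                  exact mul_le_mul h2 h1 (by positivity) (by
                    apply mul_nonneg (by positivity)
                    linarith))
          (by positivity)
          (by
            rw [div_lt_one (by positivity)]
            linarith)
          (by
            have h5 : (1 + m / ((N : ℝ) - m + 1)) * KK (N + 1) m (1 / (L - 1)) ≤ 2 * D := by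
              apply mul_le_mul (by linarith) hKK _ (by norm_num)
              unfold KK
              have : 0 < L - 1 := by linarith
              positivity
            calc 1 / (8 * D) * ((1 + m / ((N : ℝ) - m + 1)) * KK (N + 1) m (1 / (L - 1)))
                ≤ 1 / (8 * D) * (2 * D) := mul_le_mul_of_nonneg_left h5 (by positivity)
              _ = 1 / 4 := by
                  have : D ≠ 0 := by positivity
                  field_simp
                  norm_num
              _ ≤ _ := by linarith)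
        refine ⟨w', w1, le_trans ?_ w2⟩
        have h6 : 1 / (16 * Real.exp 1) * (Real.log n / w n) ^ m = 1 / 2 * (1 / (8 * D)) := by
          rw [hD, hL]
          have h7 : 2 * (w n : ℝ) / (2 * Real.log n) = (w n : ℝ) / Real.log n := by
            rw [mul_div_mul_left _ _ two_ne_zero]
          rw [h7, div_pow, div_pow]
          have h8 : (w n : ℝ) ^ m ≠ 0 := by positivity
          have h9 : Real.log (n : ℝ) ^ m ≠ 0 := by
            have : 0 < Real.log (n : ℝ) := by linarith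
            positivity
          field_simp
          norm_num
        rw [h6]
        exact mul_le_mul_of_nonneg_right (by linarith) (by positivity)
      · push Not at hcase
        obtain ⟨w', w1, w2⟩ := block_indep (I := Ioc (n ^ 2) (n ^ 2 + w n)) (L := L)
          (2 * m + 1) (by linarith) hIW
        refine ⟨w', w1, le_trans ?_ w2⟩
        rw [hcard]
        apply Real.exp_le_exp.2
        rw [neg_le_neg_iff, div_le_iff₀ (by linarith)]
        have h1 : 32 * (m : ℝ) * Real.log n ≤ 32 * m * (L - 1) := by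
          apply mul_le_mul_of_nonneg_left _ (by positivity)
          rw [hL]
          linarith
        linarith)
    hδ0
    (by
      intro hsum
      apply hs
      have h1 := (summable_nat_add_iff n₁).2 hsum
      have h2 : (fun n : ℕ => S.indicator δ (n + n₁)) = fun n : ℕ => δ (n + n₁) := by
        funext n
        exact Set.indicator_of_mem (show n₁ ≤ n + n₁ by omega) _
      rw [h2, summable_nat_add_iff n₁ (f := δ)] at h1
      have h3 := h1.tendsto_atTop_zero.eventually_lt_const (Real.exp_pos (-(32 * (m : ℝ))))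
      refine Summable.of_norm_bounded_eventually_nat (g := fun n => 16 * Real.exp 1 * δ n)
        (h1.mul_left _) ?_
      filter_upwards [h3] with n hn
      simp only [hδ] at hn ⊢
      split_ifs at hn ⊢ with hcase
      · rw [Real.norm_of_nonneg (by
          have := Real.log_natCast_nonneg n
          positivity)]
        rw [← mul_assoc]
        have : 16 * Real.exp 1 * (1 / (16 * Real.exp 1)) = 1 := by
          field_simp
        rw [this, one_mul]
      · exact absurd hn (lt_irrefl _))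
  refine ⟨Ω, mΩ, P, hP, E, hE, hT, ?_⟩
  filter_upwards [hae] with ω hω
  refine hω.mono ?_
  rintro n ⟨_, hn⟩ y hy1 hy2
  exact hn y (mem_Ioc.2 ⟨hy1, hy2⟩)

end Q167.SQ
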